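import Pool.Agent.R501.CP4
import Pool.Agent.W93.AU14

set_option autoImplicit false

/-! Two-sided sums of the Liouville function along linear forms, the constant terms of which run through automatic sets. -/

namespace Pool.Agent.R322.AC
open Finset
open Pool.Agent.R459.Fams (count count_eq count_mono count_union)
open Pool.Agent.R459.Shift (Good Near Weights lam)
open Pool.Agent.R501.CP (Good2 good2_of good_mono cbound weights_one tuples floor_log Chowla)

open Classical in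
/-- the members below `N` of the automatic set of `M` -/
noncomputable def aset {σ : Type} (b : ℕ) (M : DFA ℕ σ) (N : ℕ) : Finset ℕ :=
  (range N).filter (fun v => Nat.digits b v ∈ M.accepts)

/-- the automatic set of `M` has more than polylogarithmically many members -/
def Dense {σ : Type} (b : ℕ) (M : DFA ℕ σ) : Prop :=
  ∀ k : ℕ, ∃ᶠ N : ℕ in Filter.atTop, Real.log N ^ k < ((aset b M N).card : ℝ)

lemma dilate (a X : ℕ) (ha : 1 ≤ a) (G : ℕ → ℕ → ℂ) :
    ∑ m ∈ Icc 1 (a * X), (if a ∣ m then G (m / a) m else 0) = ∑ n ∈ Icc 1 X, G n (a * n) := by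
  classical
  rw [← sum_filter]
  symm
  apply sum_nbij' (fun n => a * n) (fun m => m / a)
  · intro n hn
    rw [mem_Icc] at hn
    rw [mem_filter, mem_Icc]
    exact ⟨⟨Nat.mul_pos ha hn.1, Nat.mul_le_mul_left _ hn.2⟩, dvd_mul_right _ _⟩
  · intro m hm
    rw [mem_filter, mem_Icc] at hm
    obtain ⟨⟨h1, h2⟩, q, rfl⟩ := hm
    rw [Nat.mul_div_cancel_left _ ha, mem_Icc]
    refine ⟨?_, ?_⟩
    · by_contra h
      have : q = 0 := by omega
      subst this
      simp at h1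
    · exact Nat.le_of_mul_le_mul_left h2 ha
  · intro n _
    exact Nat.mul_div_cancel_left _ ha
  · intro m hm
    rw [mem_filter] at hm
    exact Nat.mul_div_cancel' hm.2
  · intro n _
    rw [Nat.mul_div_cancel_left _ ha]

/-- one-sided sums -/
lemma au1 {σ : Type} [Fintype σ] (b : ℕ) (hb : 2 ≤ b) (M : DFA ℕ σ) (hS : Dense b M) (γ : ℤ) (hγ : γ ≠ 0)
    (B T U : ℕ) : ∃ N₀ : ℕ, ∀ N : ℕ, N₀ ≤ N → ∀ k : ℕ, 1 ≤ k → (k : ℝ) ≤ Real.log N → ∀ c : ℤ, |c| ≤ B * N →
    ∀ (L : ℕ) (a : Fin L → ℕ) (g : Fin L → ℕ → ℂ), Weights T k a g →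
      count (aset b M N) (fun v => ¬ Good lam B U N k a g (c + γ * v)) ≤ (aset b M N).card / (k : ℝ) ^ U := by
  classical
  obtain ⟨N₀, h⟩ := Pool.Agent.W93.AU.au_corr b hb M (fun k => (hS k).mono fun N hN => by
      unfold aset at hN
      convert hN using 3)
    Pool.Agent.H373R2.T7.liR Pool.Agent.W93.LM.nice_liR γ hγ B T U
  refine ⟨N₀, fun N hN k hk1 hk c hc L a g hw => ?_⟩
  obtain ⟨hL, ha, hg⟩ := hw
  have hk0 : (0 : ℝ) < k := by exact_mod_cast hk1
  have hT : (k : ℝ) ^ T ≤ Real.log N ^ T := pow_le_pow_left₀ hk0.le hk _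
  have hU : (k : ℝ) ^ U ≤ Real.log N ^ U := pow_le_pow_left₀ hk0.le hk _
  have hlogT : (0 : ℝ) ≤ Real.log N ^ T := by positivity
  have h1 := h N hN c hc L (hL.trans hT)
    (fun l m => if h : l < L then (if a ⟨l, h⟩ ∣ m then g ⟨l, h⟩ (m / a ⟨l, h⟩) else 0) else 0) (by
    intro l hl n _ _
    simp only [hl, dif_pos]
    split_ifs with hd
    · exact (hg _ _).trans hT
    · rw [norm_zero]
      exact hlogT) (fun v : ℕ => ¬ Good lam B U N k a g (c + γ * v)) (by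
    intro v hv
    unfold Good at hv
    push Not at hv
    obtain ⟨l, X, hX, h2⟩ := hv
    refine ⟨l, l.2, a l * X, hX, ?_⟩
    have h3 : (N : ℝ) / Real.log N ^ U ≤ N / (k : ℝ) ^ U := by
      apply div_le_div_of_nonneg_left (Nat.cast_nonneg _) (by positivity) hU
    refine lt_of_le_of_lt h3 (lt_of_lt_of_eq h2 ?_)
    simp only [l.2, dif_pos]
    congr 1
    have e1 := dilate (a l) X (ha l) (fun n m => g l n * Pool.Agent.H373R2.T7.exI Pool.Agent.H373R2.T7.liR ((m : ℤ) + (c + γ * v)))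
    have e2 : ∑ m ∈ Icc 1 (a l * X), (if a l ∣ m then g l (m / a l) else 0) *
        Pool.Agent.H373R2.T7.exI Pool.Agent.H373R2.T7.liR ((m : ℤ) + (c + γ * v)) =
        ∑ m ∈ Icc 1 (a l * X), (if a l ∣ m then g l (m / a l) *
          Pool.Agent.H373R2.T7.exI Pool.Agent.H373R2.T7.liR ((m : ℤ) + (c + γ * v)) else 0) := by
      apply sum_congr rfl
      intro m _
      split_ifs
      · rfl
      · rw [zero_mul]
    refine Eq.trans ?_ (Eq.trans e1.symm e2.symm)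
    apply sum_congr rfl
    intro n _
    rw [Pool.Agent.R459.Shift.lam_exI]
    congr 2)
  rw [count_eq]
  have e : ((aset b M N).filter fun v : ℕ => ¬ Good lam B U N k a g (c + γ * v)) =
      (range N).filter (fun v : ℕ => Nat.digits b v ∈ M.accepts ∧ ¬ Good lam B U N k a g (c + γ * v)) := by
    unfold aset
    rw [filter_filter]
  have e' : ((range N).filter fun v => Nat.digits b v ∈ M.accepts).card = (aset b M N).card := by
    unfold aset
    congr!
  rw [e]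
  rw [e'] at h1
  refine (le_trans (le_of_eq (by congr!)) h1).trans ?_
  apply div_le_div_of_nonneg_left (Nat.cast_nonneg _) (by positivity) hU

/-- two-sided version -/
lemma au2 {σ : Type} [Fintype σ] (b : ℕ) (hb : 2 ≤ b) (M : DFA ℕ σ) (hS : Dense b M) (γ : ℤ) (hγ : γ ≠ 0)
    (B T U : ℕ) : ∃ N₀ : ℕ, ∀ N : ℕ, N₀ ≤ N → ∀ k : ℕ, 3 ≤ k → (k : ℝ) ≤ Real.log N → ∀ c : ℤ, |c| ≤ B * N →
    ∀ (L : ℕ) (a : Fin L → ℕ) (g : Fin L → ℕ → ℂ), Weights T k a g →
      count (aset b M N) (fun v => ¬ Good2 B U N k a g (c + γ * v)) ≤ (aset b M N).card / (k : ℝ) ^ U := by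
  classical
  obtain ⟨N₀, h⟩ := au1 b hb M hS γ hγ (3 * B) T (U + T + 1)
  obtain ⟨N₁, h'⟩ := au1 b hb M hS (-γ) (neg_ne_zero.2 hγ) (3 * B) T (U + T + 1)
  refine ⟨N₀ + N₁, fun N hN k hk3 hk c hc L a g hw => ?_⟩
  have hk1 : 1 ≤ k := by omega
  have hk0 : (0 : ℝ) < k := by exact_mod_cast hk1
  have hkr : (3 : ℝ) ≤ k := by exact_mod_cast hk3
  obtain ⟨x, hx⟩ : ∃ x : ℕ, x = (aset b M N).card := ⟨_, rfl⟩
  rw [← hx]
  have hc3 : |c| ≤ ((3 * B : ℕ) : ℤ) * N := by
    refine hc.trans ?_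
    apply mul_le_mul_of_nonneg_right _ (Int.natCast_nonneg _)
    push_cast
    have : (0 : ℤ) ≤ B := Int.natCast_nonneg _
    linarith
  have hA := h N (by omega) k hk1 hk c hc3 L a g hw
  rw [← hx] at hA
  have hB : ∀ l : Fin L, count (aset b M N) (fun v => ¬ (a l ≤ B * N → Good lam (3 * B) (U + 1) N k (fun _ : Fin 1 => a l)
      (fun _ n => g l (B * N / a l + 1 - n)) (-(c + γ * v) - (a l * (B * N / a l + 1) : ℕ)))) ≤ x / (k : ℝ) ^ (U + T + 1) := by
    intro l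
    by_cases hl : a l ≤ B * N
    · have h3 := h' N (by omega) k hk1 hk ((-1) * c + -((a l * (B * N / a l + 1) : ℕ) : ℤ))
        (cbound B N c hc (a l) (hw.2.1 l) hl) 1 _ _ (weights_one (by omega) hw l (B * N / a l + 1))
      rw [← hx] at h3
      refine (count_mono fun m _ hm hcon => hm fun _ => ?_).trans h3
      have h6 := good_mono (by omega) (show U + 1 ≤ U + T + 1 by omega) hcon
      have e2 : -(c + γ * m) - ((a l * (B * N / a l + 1) : ℕ) : ℤ) = (-1) * c + -((a l * (B * N / a l + 1) : ℕ) : ℤ) + -γ * m := by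
        ring
      rw [e2]
      exact h6
    · rw [count_eq]
      have : (aset b M N).filter (fun v : ℕ => ¬ (a l ≤ B * N → Good lam (3 * B) (U + 1) N k (fun _ : Fin 1 => a l)
          (fun _ n => g l (B * N / a l + 1 - n)) (-(c + γ * v) - (a l * (B * N / a l + 1) : ℕ)))) = ∅ := by
        apply filter_false_of_mem
        intro m _ hcon
        exact hcon fun hc => absurd hc hl
      rw [this]
      simp only [card_empty, Nat.cast_zero]
      positivity
  have h4 := count_union (aset b M N) (univ : Finset (Option (Fin L))) (fun v => ¬ Good2 B U N k a g (c + γ * v))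
    (fun o v => match o with
      | none => ¬ Good lam (3 * B) (U + T + 1) N k a g (c + γ * v)
      | some l => ¬ (a l ≤ B * N → Good lam (3 * B) (U + 1) N k (fun _ : Fin 1 => a l)
        (fun _ n => g l (B * N / a l + 1 - n)) (-(c + γ * v) - (a l * (B * N / a l + 1) : ℕ)))) (by
    intro v _ hm
    by_contra hcon
    push Not at hcon
    apply hm
    have g1 := hcon none (mem_univ _)
    simp only [not_not] at g1
    refine good2_of B U N k hk3 a hw.2.1 g (c + γ * v) (good_mono (by omega) (by omega) g1) fun l hl => ?_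
    have g2 := hcon (some l) (mem_univ _)
    by_contra h5
    exact g2 ⟨hl, h5⟩)
  refine h4.trans ?_
  rw [Fintype.sum_option]
  have hL := hw.1
  have h5 : ∑ l : Fin L, count (aset b M N) (fun v => ¬ (a l ≤ B * N → Good lam (3 * B) (U + 1) N k (fun _ : Fin 1 => a l)
      (fun _ n => g l (B * N / a l + 1 - n)) (-(c + γ * v) - (a l * (B * N / a l + 1) : ℕ)))) ≤
      (k : ℝ) ^ T * (x / (k : ℝ) ^ (U + T + 1)) := by
    refine (sum_le_sum fun l _ => hB l).trans ?_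
    rw [sum_const, card_univ, Fintype.card_fin, nsmul_eq_mul]
    exact mul_le_mul_of_nonneg_right hL (by positivity)
  have h6 : (x : ℝ) / (k : ℝ) ^ (U + T + 1) ≤ (k : ℝ) ^ T * (x / (k : ℝ) ^ (U + T + 1)) := by
    have g1 : (1 : ℝ) ≤ (k : ℝ) ^ T := one_le_pow₀ (by linarith)
    have g2 : (0 : ℝ) ≤ x / (k : ℝ) ^ (U + T + 1) := by positivity
    nlinarith
  have h7 : (k : ℝ) ^ T * (x / (k : ℝ) ^ (U + T + 1)) = x / (k : ℝ) ^ U / k := by
    rw [show U + T + 1 = T + (U + 1) by ring, pow_add, pow_succ]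
    field_simp
  have h8 : (x : ℝ) / (k : ℝ) ^ U / k * 2 ≤ x / (k : ℝ) ^ U := by
    rw [div_mul_eq_mul_div, div_le_iff₀ hk0]
    have : (0 : ℝ) ≤ x / (k : ℝ) ^ U := by positivity
    nlinarith
  calc _ ≤ x / (k : ℝ) ^ U / k + x / (k : ℝ) ^ U / k := by
        rw [← h7]
        exact add_le_add (hA.trans h6) h5
    _ ≤ _ := by linarith

/-- both signs -/
lemma au3 {σ : Type} [Fintype σ] (b : ℕ) (hb : 2 ≤ b) (M : DFA ℕ σ) (hS : Dense b M) (γ : ℤ) (hγ : γ ≠ 0)
    (B T U : ℕ) : ∃ N₀ : ℕ, ∀ N : ℕ, N₀ ≤ N → ∀ k : ℕ, 3 ≤ k → (k : ℝ) ≤ Real.log N → ∀ c : ℤ, |c| ≤ B * N →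
    ∀ (L : ℕ) (a : Fin L → ℕ) (g g' : Fin L → ℕ → ℂ), Weights T k a g → Weights T k a g' →
      count (aset b M N) (fun v => ¬ (Good2 B U N k a g (c + γ * v) ∧ Good2 B U N k a g' (-(c + γ * v)))) ≤
        (aset b M N).card / (k : ℝ) ^ U := by
  classical
  obtain ⟨N₀, h⟩ := au2 b hb M hS γ hγ B T (U + 1)
  obtain ⟨N₁, h'⟩ := au2 b hb M hS (-γ) (neg_ne_zero.2 hγ) B T (U + 1)
  refine ⟨N₀ + N₁, fun N hN k hk3 hk c hc L a g g' hg hg' => ?_⟩
  have hk0 : (0 : ℝ) < k := by exact_mod_cast (by omega : 0 < k)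
  have hkr : (3 : ℝ) ≤ k := by exact_mod_cast hk3
  obtain ⟨x, hx⟩ : ∃ x : ℕ, x = (aset b M N).card := ⟨_, rfl⟩
  rw [← hx]
  have gm : ∀ (G : Fin L → ℕ → ℂ) (y : ℤ), Good2 B (U + 1) N k a G y → Good2 B U N k a G y := by
    intro G y hG l X hX
    refine (hG l X hX).trans ?_
    apply div_le_div_of_nonneg_left (Nat.cast_nonneg _) (by positivity)
    exact pow_le_pow_right₀ (by linarith) (by omega)
  have h1 := h N (by omega) k hk3 hk c hc L a g hg
  have h2 := h' N (by omega) k hk3 hk (-c) (by rw [abs_neg]; exact hc) L a g' hg'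
  rw [← hx] at h1 h2
  have h4 := count_union (aset b M N) (univ : Finset Bool)
    (fun v => ¬ (Good2 B U N k a g (c + γ * v) ∧ Good2 B U N k a g' (-(c + γ * v))))
    (fun o v => if o then ¬ Good2 B (U + 1) N k a g (c + γ * v) else ¬ Good2 B (U + 1) N k a g' (-c + -γ * v)) (by
    intro v _ hm
    by_contra hcon
    push Not at hcon
    apply hm
    have g1 := hcon true (mem_univ _)
    have g2 := hcon false (mem_univ _)
    simp only [if_true, not_not] at g1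
    rw [if_neg (by simp), not_not] at g2
    refine ⟨gm _ _ g1, ?_⟩
    have := gm _ _ g2
    convert this using 1
    ring)
  refine h4.trans ?_
  rw [Fintype.sum_bool]
  simp only [if_true, Bool.false_eq_true, if_false]
  have h8 : (x : ℝ) / (k : ℝ) ^ (U + 1) * 2 ≤ x / (k : ℝ) ^ U := by
    rw [pow_succ, div_mul_eq_mul_div, div_le_div_iff₀ (by positivity) (by positivity)]
    have : (x : ℝ) * 2 * (k : ℝ) ^ U ≤ x * k * (k : ℝ) ^ U := by gcongr; linarith
    calc _ ≤ (x : ℝ) * k * (k : ℝ) ^ U := this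
      _ = _ := by ring
  linarith

/-- tuples of members of automatic sets -/
theorem aut_chowla {r : ℕ} (σ : Fin r → Type) [∀ j, Fintype (σ j)] (b : Fin r → ℕ) (hb : ∀ j, 2 ≤ b j)
    (M : ∀ j, DFA ℕ (σ j)) (hS : ∀ j, Dense (b j) (M j)) (B κ U : ℕ) : ∃ N₀ : ℕ, ∀ N : ℕ, N₀ ≤ N →
    ∀ k : ℕ, k = ⌊Real.log (N : ℝ)⌋₊ → ∀ s L : ℕ, 2 ^ s ≤ k ^ κ → L ≤ k ^ κ → ∀ (t : Fin s → Fin r) (c γ : Fin s → ℤ),
    (∀ i, |c i| ≤ B * N) → (∀ i, γ i ≠ 0 ∧ |γ i| ≤ B) →
    ∀ α : Fin s → ℕ, (∀ i, 1 ≤ α i) → ∀ f : Fin L → Polynomial ℤ,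
    count (Fintype.piFinset fun i : Fin s => aset (b (t i)) (M (t i)) N)
      (fun v => ¬ Chowla B κ U N k f α (fun i => c i + γ i * v i)) ≤
      (Fintype.piFinset fun i : Fin s => aset (b (t i)) (M (t i)) N).card / (k : ℝ) ^ U := by
  classical
  have h0 := fun (j : Fin r) (γ : {γ : ℤ // γ ≠ 0}) => au3 (b j) (hb j) (M j) (hS j) γ.1 γ.2 B (4 * κ) (U + κ + 1)
  choose K hK using h0
  obtain ⟨N₀, h1⟩ : ∃ k₀ : ℕ, ∀ x ∈ (univ : Finset (Fin r)) ×ˢ Icc (-(B : ℤ)) B,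
      (if h : x.2 ≠ 0 then K x.1 ⟨x.2, h⟩ else 0) ≤ k₀ :=
    ⟨∑ x ∈ (univ : Finset (Fin r)) ×ˢ Icc (-(B : ℤ)) B, (if h : x.2 ≠ 0 then K x.1 ⟨x.2, h⟩ else 0),
      fun x hx => single_le_sum (f := fun x : Fin r × ℤ => (if h : x.2 ≠ 0 then K x.1 ⟨x.2, h⟩ else 0))
        (fun _ _ => Nat.zero_le _) hx⟩
  obtain ⟨N1, h2⟩ := floor_log (U + 1)
  refine ⟨N₀ + N1, fun N hN k hk s L hs hL t c γ hc hγ α hα f => ?_⟩
  obtain ⟨hk3, -, hkN, hkL⟩ := h2 N (by omega)
  rw [← hk] at hk3 hkN hkL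
  have hk1 : 1 ≤ k := by omega
  have hkr : (1 : ℝ) ≤ k := by exact_mod_cast hk1
  have gm : ∀ (M : ℕ) (a : Fin M → ℕ) (G : Fin M → ℕ → ℂ) (y : ℤ), Good2 B (U + κ + 1) N k a G y → Good2 B (U + 1) N k a G y := by
    intro M a G y hG l X hX
    refine (hG l X hX).trans ?_
    apply div_le_div_of_nonneg_left (Nat.cast_nonneg _) (by positivity)
    exact pow_le_pow_right₀ hkr (by omega)
  refine tuples B κ U N k (4 * κ) hk3 hkN rfl hs hL (fun i => aset (b (t i)) (M (t i)) N)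
    (fun i v => c i + γ i * v) f α hα (U + κ) rfl ?_
  intro i M' g g' hg hg'
  have hm := abs_le.1 (hγ i).2
  have e1 := h1 (t i, γ i) (mem_product.2 ⟨mem_univ _, mem_Icc.2 hm⟩)
  simp only at e1
  rw [dif_pos (hγ i).1] at e1
  have h3 := hK (t i) ⟨γ i, (hγ i).1⟩ N (e1.trans (by omega)) k hk3 hkL (c i) (hc i) M' _ g g' hg hg'
  refine (count_mono fun v _ hv hcon => hv ⟨gm _ _ _ _ hcon.1, gm _ _ _ _ hcon.2⟩).trans (h3.trans ?_)
  apply div_le_div_of_nonneg_left (Nat.cast_nonneg _) (by positivity)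
  exact pow_le_pow_right₀ hkr (by omega)

end Pool.Agent.R322.AC
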