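import Mathlib

/-!
# Cliques of integers with prescribed quotients `x / (y - x)`

For coprime `a₁, a₂` and every `K` there are `K` positive integers such that for all `x < y` among
them `a₁ (y - x) ∣ x` and `a₂ (y - x) ∣ y`.
-/

namespace Pool.Agent.R322

/-- Every positive integer `D` is a product of a part coprime to `c` and a part dividing a power
of `c`. -/
lemma exists_coprime_part (c : ℕ) : ∀ D : ℕ, 0 < D →
    ∃ D' D'' r : ℕ, D = D' * D'' ∧ Nat.Coprime D' c ∧ D'' ∣ c ^ r ∧ 0 < D' ∧ 0 < D'' := by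
  intro D
  induction D using Nat.strong_induction_on with
  | _ D ih =>
    intro hD
    by_cases h : Nat.Coprime D c
    · exact ⟨D, 1, 0, by simp, h, by simp, hD, by norm_num⟩
    · have hg : 1 < Nat.gcd D c := by
        rcases Nat.lt_or_ge 1 (Nat.gcd D c) with h1 | h1
        · exact h1
        · exfalso
          have : 0 < Nat.gcd D c := Nat.gcd_pos_of_pos_left _ hD
          exact h (by unfold Nat.Coprime; omega)
      obtain ⟨E, hE⟩ := Nat.gcd_dvd_left D c
      have hE0 : 0 < E := by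
        rcases Nat.eq_zero_or_pos E with h0 | h0
        · subst h0; omega
        · exact h0
      have hlt : E < D := by
        calc E = 1 * E := (one_mul E).symm
          _ < Nat.gcd D c * E := Nat.mul_lt_mul_of_pos_right hg hE0
          _ = D := hE.symm
      obtain ⟨D', D'', r, h1, h2, h3, h4, h5⟩ := ih E hlt hE0
      refine ⟨D', Nat.gcd D c * D'', r + 1, ?_, h2, ?_, h4, ?_⟩
      · calc D = Nat.gcd D c * E := hE
          _ = D' * (Nat.gcd D c * D'') := by rw [h1]; ring
      · rw [pow_succ, mul_comm]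
        exact Nat.mul_dvd_mul h3 (Nat.gcd_dvd_right D c)
      · exact Nat.mul_pos (by omega) h5

/-- The clique condition. -/
def IsClique (a₁ a₂ L : ℕ) (S : Finset ℕ) : Prop :=
  (∀ x ∈ S, 0 < x) ∧ ∀ x ∈ S, ∀ y ∈ S, x < y →
    a₁ * (y - x) ∣ x ∧ a₂ * (y - x) ∣ y ∧ L * (y - x) ≤ x

lemma clique_step (a₁ a₂ L : ℕ) (h1 : 0 < a₁) (h2 : 0 < a₂) (hc : Nat.Coprime a₁ a₂)
    (S : Finset ℕ) (hS : IsClique a₁ a₂ L S) :
    ∃ S' : Finset ℕ, IsClique a₁ a₂ L S' ∧ S'.card = S.card + 1 := by
  obtain ⟨hpos, hcl⟩ := hS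
  -- product of all differences
  set D : ℕ := ∏ p ∈ S ×ˢ S, (if p.1 < p.2 then p.2 - p.1 else 1) with hD
  have hDpos : 0 < D := by
    rw [hD]
    apply Finset.prod_pos
    intro p hp
    split_ifs with h
    · omega
    · norm_num
  have hDdvd : ∀ x ∈ S, ∀ y ∈ S, x < y → (y - x) ∣ D := by
    intro x hx y hy hxy
    have := Finset.dvd_prod_of_mem (fun p : ℕ × ℕ => if p.1 < p.2 then p.2 - p.1 else 1)
      (Finset.mk_mem_product hx hy)
    simpa [hxy] using this
  obtain ⟨D', D'', r, hDD, hD'c, hD''r, hD'0, hD''0⟩ := exists_coprime_part a₂ D hDpos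
  obtain ⟨s, hs⟩ : ∃ s, s = a₁ * D' := ⟨_, rfl⟩
  have hs0 : 0 < s := hs ▸ Nat.mul_pos h1 hD'0
  have hsc : Nat.Coprime s a₂ := hs ▸ Nat.Coprime.mul_left hc hD'c
  obtain ⟨t, ht⟩ : ∃ t, t = a₂ * (s + 1) := ⟨_, rfl⟩
  have hts : s < t := by
    have : 1 * (s + 1) ≤ a₂ * (s + 1) := Nat.mul_le_mul_right _ h2
    omega
  have hst : Nat.Coprime s t := by
    rw [ht]
    exact Nat.Coprime.mul_right hsc (by simp)
  have ha2t : a₂ ∣ t := ht ▸ Dvd.intro _ rfl
  -- w
  have hw : ∀ x ∈ S, s < t * x := by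
    intro x hx
    have := hpos x hx
    calc s < t := hts
      _ = t * 1 := (mul_one t).symm
      _ ≤ t * x := Nat.mul_le_mul_left _ this
  have hwc : ∀ x ∈ S, Nat.Coprime (t * x - s) t := by
    intro x hx
    have hx' := hw x hx
    by_contra hcon
    obtain ⟨p, hp, hp1, hp2⟩ := Nat.Prime.not_coprime_iff_dvd.mp hcon
    have hps : p ∣ s := by
      have h3 : p ∣ t * x := Dvd.dvd.mul_right hp2 x
      have h4 : s = t * x - (t * x - s) := by omega
      rw [h4]
      exact Nat.dvd_sub h3 hp1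
    exact Nat.Prime.not_coprime_iff_dvd.mpr ⟨p, hp, hps, hp2⟩ hst
  have hwa : ∀ x ∈ S, Nat.Coprime (t * x - s) a₂ := fun x hx =>
    Nat.Coprime.coprime_dvd_right ha2t (hwc x hx)
  obtain ⟨W, hW⟩ : ∃ W, W = ∏ x ∈ S, (t * x - s) := ⟨_, rfl⟩
  have hWdvd : ∀ x ∈ S, (t * x - s) ∣ W := fun x hx =>
    hW ▸ Finset.dvd_prod_of_mem (fun x => t * x - s) hx
  have hWt : Nat.Coprime W t := hW ▸ Nat.Coprime.prod_left hwc
  have hWa : Nat.Coprime W a₂ := hW ▸ Nat.Coprime.prod_left hwa
  have key : Nat.Coprime (s * W) (a₂ * t * D'') := by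
    have hD''s : Nat.Coprime s D'' :=
      Nat.Coprime.coprime_dvd_right hD''r (Nat.Coprime.pow_right r hsc)
    have hD''W : Nat.Coprime W D'' :=
      Nat.Coprime.coprime_dvd_right hD''r (Nat.Coprime.pow_right r hWa)
    refine Nat.Coprime.mul_left ?_ ?_
    · exact Nat.Coprime.mul_right (Nat.Coprime.mul_right hsc hst) hD''s
    · exact Nat.Coprime.mul_right (Nat.Coprime.mul_right hWa hWt) hD''W
  obtain ⟨V0, hV0a, hV0b⟩ := Nat.chineseRemainder key 0 s
  obtain ⟨T, hT⟩ : ∃ T, T = (L + 1) * (t * (∑ x ∈ S, x) + 1) + s := ⟨_, rfl⟩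
  obtain ⟨V, hV⟩ : ∃ V, V = V0 + (s * W) * (a₂ * t * D'') * T := ⟨_, rfl⟩
  have hVa : s * W ∣ V := by
    rw [hV]
    apply Dvd.dvd.add
    · exact (Nat.modEq_zero_iff_dvd).mp hV0a
    · exact ⟨(a₂ * t * D'') * T, by ring⟩
  have hABpos : 0 < (s * W) * (a₂ * t * D'') := by
    have hWpos : 0 < W := by
      rw [hW]
      apply Finset.prod_pos
      intro x hx
      have := hw x hx
      omega
    have htpos : 0 < t := by omega
    positivity
  have hVT : T ≤ V := by
    rw [hV]
    calc T = 1 * T := (one_mul T).symm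
      _ ≤ (s * W) * (a₂ * t * D'') * T := Nat.mul_le_mul_right _ hABpos
      _ ≤ _ := Nat.le_add_left _ _
  have hsV : s ≤ V := le_trans (by rw [hT]; omega) hVT
  have hVb : a₂ * t * D'' ∣ V - s := by
    have : V ≡ s [MOD a₂ * t * D''] := by
      rw [hV]
      have h3 : (s * W) * (a₂ * t * D'') * T ≡ 0 [MOD a₂ * t * D''] :=
        (Nat.modEq_zero_iff_dvd).mpr (Dvd.intro_left (s * W * T) (by ring))
      simpa using hV0b.add h3
    exact (Nat.modEq_iff_dvd' hsV).mp this.symm
  have hVs : s ∣ V - s := Nat.dvd_sub (Dvd.dvd.trans (Dvd.intro _ rfl) hVa) dvd_rfl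
  -- V - s is divisible by a₁ a₂ t D
  have hVD : a₁ * a₂ * t * D ∣ V - s := by
    have hcop : Nat.Coprime s (a₂ * t * D'') := Nat.Coprime.coprime_dvd_left (Dvd.intro _ rfl) key
    have := Nat.Coprime.mul_dvd_of_dvd_of_dvd hcop hVs hVb
    have h4 : a₁ * a₂ * t * D = s * (a₂ * t * D'') := by rw [hs, hDD]; ring
    rw [h4]; exact this
  have hsum : ∀ x ∈ S, t * x ≤ t * (∑ x ∈ S, x) := fun x hx =>
    Nat.mul_le_mul_left _ (Finset.single_le_sum (f := fun x => x) (fun _ _ => Nat.zero_le _) hx)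
  have hLV : ∀ n, n ≤ t * (∑ x ∈ S, x) → L * n ≤ V := by
    intro n hn
    have : L * n ≤ (L + 1) * (t * (∑ x ∈ S, x) + 1) := Nat.mul_le_mul (by omega) (by omega)
    omega
  refine ⟨insert V (S.image (fun x => V + (t * x - s))), ⟨?_, ?_⟩, ?_⟩
  · intro x hx
    have hV1 : 0 < V := by omega
    rcases Finset.mem_insert.mp hx with rfl | hx
    · exact hV1
    · obtain ⟨y, hy, rfl⟩ := Finset.mem_image.mp hx
      omega
  · -- the clique condition
    have main1 : ∀ y ∈ S, a₁ * (t * y - s) ∣ V ∧ a₂ * (t * y - s) ∣ V + (t * y - s) := by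
      intro y hy
      refine ⟨?_, ?_⟩
      · have h5 : a₁ * (t * y - s) ∣ s * W := by
          rw [hs, mul_assoc]
          refine Nat.mul_dvd_mul dvd_rfl (Dvd.dvd.mul_left (hs ▸ hWdvd y hy) _)
        exact h5.trans hVa
      · have h6 : (t * y - s) ∣ V + (t * y - s) :=
          Dvd.dvd.add (((hWdvd y hy).mul_left s).trans hVa) dvd_rfl
        have h7 : a₂ ∣ V + (t * y - s) := by
          have h8 : V + (t * y - s) = (V - s) + t * y := by
            have := hw y hy; omega
          rw [h8]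
          exact Dvd.dvd.add ((Dvd.intro (t * D'') (by ring)).trans hVb) (ha2t.mul_right y)
        exact Nat.Coprime.mul_dvd_of_dvd_of_dvd (hwa y hy).symm h7 h6
    intro x hx y hy hxy
    rcases Finset.mem_insert.mp hx with hxV | hx
    · rcases Finset.mem_insert.mp hy with hyV | hy
      · omega
      · obtain ⟨y', hy', rfl⟩ := Finset.mem_image.mp hy
        subst hxV
        have e : x + (t * y' - s) - x = t * y' - s := by omega
        rw [e]
        exact ⟨(main1 y' hy').1, (main1 y' hy').2, hLV _ (le_trans (Nat.sub_le _ _) (hsum y' hy'))⟩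
    · obtain ⟨x', hx', rfl⟩ := Finset.mem_image.mp hx
      rcases Finset.mem_insert.mp hy with hyV | hy
      · omega
      · obtain ⟨y', hy', rfl⟩ := Finset.mem_image.mp hy
        have hx1 := hw x' hx'
        have hy1 := hw y' hy'
        have hlt : x' < y' := by
          by_contra hcon
          have : t * y' ≤ t * x' := Nat.mul_le_mul_left _ (by omega)
          omega
        obtain ⟨c1, c2, c3⟩ := hcl x' hx' y' hy' hlt
        have e : V + (t * y' - s) - (V + (t * x' - s)) = t * (y' - x') := by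
          rw [Nat.mul_sub]; omega
        rw [e]
        have ex : V + (t * x' - s) = (V - s) + t * x' := by omega
        have ey : V + (t * y' - s) = (V - s) + t * y' := by omega
        have hdd := hDdvd x' hx' y' hy' hlt
        refine ⟨?_, ?_, ?_⟩
        · rw [ex]
          apply Dvd.dvd.add
          · refine Dvd.dvd.trans ?_ hVD
            obtain ⟨k, hk⟩ := hdd
            exact ⟨a₂ * k, by rw [hk]; ring⟩
          · have := Nat.mul_dvd_mul (dvd_refl t) c1
            rwa [show a₁ * (t * (y' - x')) = t * (a₁ * (y' - x')) by ring]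
        · rw [ey]
          apply Dvd.dvd.add
          · refine Dvd.dvd.trans ?_ hVD
            obtain ⟨k, hk⟩ := hdd
            exact ⟨a₁ * k, by rw [hk]; ring⟩
          · have := Nat.mul_dvd_mul (dvd_refl t) c2
            rwa [show a₂ * (t * (y' - x')) = t * (a₂ * (y' - x')) by ring]
        · refine le_trans (hLV _ ?_) (Nat.le_add_right _ _)
          exact le_trans (Nat.mul_le_mul_left _ (Nat.sub_le _ _)) (hsum y' hy')
  · rw [Finset.card_insert_of_notMem, Finset.card_image_of_injOn]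
    · intro x hx y hy hxy
      simp only at hxy
      have hx1 := hw x hx
      have hy1 := hw y hy
      have : t * x = t * y := by omega
      exact Nat.eq_of_mul_eq_mul_left (by omega) this
    · intro h
      obtain ⟨x, hx, hxV⟩ := Finset.mem_image.mp h
      have := hw x hx
      omega

/-- For coprime `a₁, a₂` there are arbitrarily large cliques. -/
lemma exists_clique (a₁ a₂ L : ℕ) (h1 : 0 < a₁) (h2 : 0 < a₂) (hc : Nat.Coprime a₁ a₂) (K : ℕ) :
    ∃ S : Finset ℕ, IsClique a₁ a₂ L S ∧ S.card = K := by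
  induction K with
  | zero => exact ⟨∅, ⟨by simp, by simp⟩, by simp⟩
  | succ K ih =>
    obtain ⟨S, hS, hK⟩ := ih
    obtain ⟨S', hS', hK'⟩ := clique_step a₁ a₂ L h1 h2 hc S hS
    exact ⟨S', hS', by rw [hK', hK]⟩

end Pool.Agent.R322
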