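import Pool.Agent.R322.MillerForm

/-!
# Values of `E₄, E₆, Δ` on the imaginary axis
-/

set_option autoImplicit false

open UpperHalfPlane hiding I
open Real Complex Filter Topology Derivative EisensteinSeries ModularForm MatrixGroups Function CuspForm
open scoped Manifold MatrixGroups ModularForm

namespace Pool.Agent.R322.QD

/-- `q = exp (- 2 π Im τ)` on the imaginary axis. -/
noncomputable def rr (τ : ℍ) : ℝ := Real.exp (-2 * π * τ.im)

lemma rr_pos (τ : ℍ) : 0 < rr τ := Real.exp_pos _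

lemma qParam_eq {τ : ℍ} (h : τ.re = 0) : Function.Periodic.qParam 1 (τ : ℂ) = (rr τ : ℂ) := by
  have h1 : (τ : ℂ) = I * τ.im := by
    apply Complex.ext
    · simp only [Complex.mul_re, Complex.I_re, Complex.I_im, Complex.ofReal_re, Complex.ofReal_im]
      simpa using h
    · simp
  simp only [Function.Periodic.qParam, rr, ofReal_one, div_one]
  rw [h1]
  push_cast
  congr 1
  linear_combination (2 * π * (τ.im : ℂ)) * Complex.I_sq

lemma hasSum_real {f : ℍ → ℂ} (hf : Good f) (c : ℕ → ℝ)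
    (hc : ∀ n, (qExpansion 1 f).coeff n = (c n : ℂ)) {τ : ℍ} (h : τ.re = 0) :
    HasSum (fun n => c n * rr τ ^ n) (f τ).re ∧ (f τ).im = 0 := by
  have h1 := UpperHalfPlane.hasSum_qExpansion one_pos hf.per hf.hol hf.bdd τ
  rw [qParam_eq h] at h1
  have h2 : (fun m : ℕ => (qExpansion 1 f).coeff m • (rr τ : ℂ) ^ m) =
      fun m => ((c m * rr τ ^ m : ℝ) : ℂ) := by
    funext m
    rw [hc, smul_eq_mul]; push_cast; rfl
  rw [h2] at h1
  refine ⟨?_, ?_⟩
  · have h3 := Complex.hasSum_re h1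
    simp only [Complex.ofReal_re] at h3
    exact h3
  · have h3 := Complex.hasSum_im h1
    simp only [Complex.ofReal_im] at h3
    exact h3.unique hasSum_zero

/-- real coefficients of `E₄` -/
noncomputable def c4 (n : ℕ) : ℝ := if n = 0 then 1 else 240 * ArithmeticFunction.sigma 3 n
/-- real coefficients of `E₆` -/
noncomputable def c6 (n : ℕ) : ℝ := if n = 0 then 1 else -504 * ArithmeticFunction.sigma 5 n

lemma E4_axis {τ : ℍ} (h : τ.re = 0) :
    HasSum (fun n => c4 n * rr τ ^ n) (E₄ τ).re ∧ (E₄ τ).im = 0 := by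
  apply hasSum_real good_E4 c4 _ h
  intro n
  have := coeff_e4 n
  rw [e4] at this
  rw [this, c4]
  split_ifs <;> simp

lemma E6_axis {τ : ℍ} (h : τ.re = 0) :
    HasSum (fun n => c6 n * rr τ ^ n) (E₆ τ).re ∧ (E₆ τ).im = 0 := by
  apply hasSum_real good_E6 c6 _ h
  intro n
  have := coeff_e6 n
  rw [e6] at this
  rw [this, c6]
  split_ifs <;> simp

lemma E4_ne_zero {τ : ℍ} (h : τ.re = 0) : E₄ τ ≠ 0 := by
  obtain ⟨h1, -⟩ := E4_axis h
  have h2 : c4 0 * rr τ ^ 0 ≤ (E₄ τ).re := by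
    refine le_hasSum h1 0 fun n hn => ?_
    have : 0 ≤ c4 n := by
      unfold c4
      split_ifs <;> positivity
    exact mul_nonneg this (pow_nonneg (rr_pos τ).le _)
  intro h3
  rw [h3] at h2
  simp [c4] at h2
  linarith

lemma rr_lt {τ σ : ℍ} (h : τ.im < σ.im) : rr σ < rr τ := by
  unfold rr
  apply Real.exp_lt_exp.mpr
  have := Real.pi_pos
  nlinarith

lemma E6_mono {τ σ : ℍ} (h : τ.re = 0) (h' : σ.re = 0) (him : τ.im < σ.im) :
    (E₆ τ).re < (E₆ σ).re := by
  obtain ⟨h1, -⟩ := E6_axis h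
  obtain ⟨h2, -⟩ := E6_axis h'
  have hlt := rr_lt him
  have hσ := rr_pos σ
  have key : ∀ n, c6 n * rr τ ^ n ≤ c6 n * rr σ ^ n := by
    intro n
    by_cases hn : n = 0
    · simp [hn]
    · have hc : c6 n ≤ 0 := by
        unfold c6
        rw [if_neg hn]
        have : (0 : ℝ) ≤ ArithmeticFunction.sigma 5 n := by positivity
        linarith
      exact mul_le_mul_of_nonpos_left (pow_le_pow_left₀ hσ.le hlt.le n) hc
  refine hasSum_lt key (i := 1) ?_ h1 h2
  have hc : c6 1 < 0 := by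
    unfold c6; norm_num
  simp only [pow_one]
  exact mul_lt_mul_of_neg_left hlt hc

lemma E6_S (τ : ℍ) : E₆ (ModularGroup.S • τ) = (τ : ℂ) ^ 6 * E₆ τ := by
  have h := SlashInvariantForm.slash_action_eqn' (Γ := 𝒮ℒ) E₆
    (show ((ModularGroup.S : SL(2, ℤ)) : GL (Fin 2) ℝ) ∈ 𝒮ℒ from ⟨ModularGroup.S, rfl⟩) τ
  have h10 : (((ModularGroup.S : SL(2, ℤ)) : GL (Fin 2) ℝ) 1 0 : ℝ) = 1 := by
    have : ((ModularGroup.S : SL(2, ℤ)) 1 0 : ℤ) = 1 := by decide
    show (((ModularGroup.S : SL(2, ℤ)) 1 0 : ℤ) : ℝ) = 1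
    rw [this]; norm_num
  have h11 : (((ModularGroup.S : SL(2, ℤ)) : GL (Fin 2) ℝ) 1 1 : ℝ) = 0 := by
    have : ((ModularGroup.S : SL(2, ℤ)) 1 1 : ℤ) = 0 := by decide
    show (((ModularGroup.S : SL(2, ℤ)) 1 1 : ℤ) : ℝ) = 0
    rw [this]; norm_num
  rw [h10, h11] at h
  have e : ((1 : ℝ) : ℂ) * (τ : ℂ) + ((0 : ℝ) : ℂ) = τ := by push_cast; ring
  rw [e] at h
  exact h

lemma S_axis {τ : ℍ} (h : τ.re = 0) : (ModularGroup.S • τ).re = 0 ∧ (ModularGroup.S • τ).im = 1 / τ.im := by
  have h1 : ((ModularGroup.S • τ : ℍ) : ℂ) = (-(τ : ℂ))⁻¹ := by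
    rw [UpperHalfPlane.modular_S_smul]
  have h2 : (τ : ℂ) = I * τ.im := by
    apply Complex.ext
    · simp only [Complex.mul_re, Complex.I_re, Complex.I_im, Complex.ofReal_re, Complex.ofReal_im]
      simpa using h
    · simp
  have him : (τ.im : ℂ) ≠ 0 := by exact_mod_cast τ.im_pos.ne'
  have h3 : (-(τ : ℂ))⁻¹ = I * ((1 / τ.im : ℝ) : ℂ) := by
    rw [h2]
    push_cast
    field_simp
    linear_combination -Complex.I_sq
  rw [h3] at h1
  constructor
  · have := congrArg Complex.re h1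
    simpa using this
  · have := congrArg Complex.im h1
    simpa using this

/-- `E₆` vanishes on the imaginary axis exactly at `i`. -/
lemma E6_eq_zero_iff {τ : ℍ} (h : τ.re = 0) : E₆ τ = 0 ↔ τ = UpperHalfPlane.I := by
  have hI : E₆ UpperHalfPlane.I = 0 := by
    have hre : (UpperHalfPlane.I : ℍ).re = 0 := by simp
    have h1 := E6_S UpperHalfPlane.I
    have h2 : ModularGroup.S • (UpperHalfPlane.I : ℍ) = UpperHalfPlane.I := by
      obtain ⟨a, b⟩ := S_axis hre
      apply UpperHalfPlane.ext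
      apply Complex.ext
      · simpa using a
      · simpa using b
    rw [h2] at h1
    have h3 : ((UpperHalfPlane.I : ℍ) : ℂ) ^ 6 = -1 := by
      rw [UpperHalfPlane.coe_I]
      calc Complex.I ^ 6 = (Complex.I ^ 2) ^ 3 := by ring
        _ = -1 := by rw [Complex.I_sq]; norm_num
    rw [h3] at h1
    have : (2 : ℂ) * E₆ UpperHalfPlane.I = 0 := by linear_combination h1
    simpa using this
  have hIre : (UpperHalfPlane.I : ℍ).re = 0 := by simp
  have hIim : (UpperHalfPlane.I : ℍ).im = 1 := by simp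
  constructor
  · intro h0
    by_contra hne
    have him : τ.im ≠ 1 := by
      intro h1
      apply hne
      apply UpperHalfPlane.ext
      apply Complex.ext
      · simpa using h
      · simpa using h1
    rcases lt_or_gt_of_ne him with hlt | hgt
    · -- Im τ < 1: apply S
      obtain ⟨a, b⟩ := S_axis h
      have h1 := E6_S τ
      rw [h0, mul_zero] at h1
      have h2 := E6_mono hIre a (by rw [hIim, b]; exact (one_lt_div τ.im_pos).mpr hlt)
      rw [h1, hI] at h2
      exact lt_irrefl _ h2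
    · have h2 := E6_mono hIre h (by rw [hIim]; exact hgt)
      rw [h0, hI] at h2
      exact lt_irrefl _ h2
  · rintro rfl
    exact hI

/-- `Δ` is a positive real number on the imaginary axis. -/
lemma disc_axis {τ : ℍ} (h : τ.re = 0) :
    ∃ r : ℝ, 0 < r ∧ ModularForm.discriminant τ = (r : ℂ) := by
  have h1 : ModularForm.discriminant τ =
      Function.Periodic.qParam 1 (τ : ℂ) * (∏' n, (1 - eta_q n τ)) ^ 24 := by
    rw [discriminant_eq_q_prod]
    congr 1
    exact (multipliableLocallyUniformlyOn_eta.multipliable τ.2).tprod_pow _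
  have hq : ∀ n, (1 - eta_q n (τ : ℂ)).im = 0 := by
    intro n
    have : eta_q n (τ : ℂ) = ((rr τ ^ (n + 1) : ℝ) : ℂ) := by
      rw [eta_q_eq_pow]
      have := qParam_eq h
      simp only [Function.Periodic.qParam, ofReal_one, div_one] at this
      rw [this]; push_cast; rfl
    rw [this, Complex.sub_im, Complex.one_im, Complex.ofReal_im, sub_zero]
  have hP : (∏' n, (1 - eta_q n (τ : ℂ))).im = 0 := by
    have hm := (multipliableLocallyUniformlyOn_eta.multipliable τ.2).hasProd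
    have hcl : IsClosed {z : ℂ | z.im = 0} := isClosed_eq Complex.continuous_im continuous_const
    refine hcl.mem_of_tendsto hm (Eventually.of_forall fun s => ?_)
    show (∏ b ∈ s, (1 - eta_q b (τ : ℂ))).im = 0
    have hs : ∏ b ∈ s, (1 - eta_q b (τ : ℂ)) = ((∏ b ∈ s, (1 - eta_q b (τ : ℂ)).re : ℝ) : ℂ) := by
      push_cast
      refine Finset.prod_congr rfl fun b _ => ?_
      apply Complex.ext
      · simp
      · rw [hq b]; simp
    rw [hs, Complex.ofReal_im]
  obtain ⟨p, hp⟩ : ∃ p : ℝ, (∏' n, (1 - eta_q n (τ : ℂ))) = (p : ℂ) :=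
    ⟨_, Complex.ext (by simp; rfl) (by rw [hP]; simp)⟩
  refine ⟨rr τ * p ^ 24, ?_, ?_⟩
  · have hne : (rr τ * p ^ 24 : ℝ) ≠ 0 := by
      have := discriminant_ne_zero τ
      rw [h1, hp, qParam_eq h] at this
      exact_mod_cast this
    exact lt_of_le_of_ne (mul_nonneg (rr_pos τ).le (by positivity)) hne.symm
  · rw [h1, hp, qParam_eq h]; push_cast; rfl

end Pool.Agent.R322.QD
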