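import Pool.Agent.R322.QD

/-!
# Positivity of the coefficients of Miller basis forms in powers of `E₆²`
-/

set_option autoImplicit false

open PowerSeries

namespace Pool.Agent.R322.QD

/-! ### Power series with nonnegative real coefficients -/

/-- All coefficients are nonnegative real numbers. -/
def NN (p : ℂ⟦X⟧) : Prop := ∀ n, ∃ r : ℝ, 0 ≤ r ∧ p.coeff n = (r : ℂ)

lemma NN.mul {p q : ℂ⟦X⟧} (hp : NN p) (hq : NN q) : NN (p * q) := by
  intro n
  choose a ha ha' using hp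
  choose b hb hb' using hq
  refine ⟨∑ x ∈ Finset.HasAntidiagonal.antidiagonal n, a x.1 * b x.2,
    Finset.sum_nonneg fun x _ => mul_nonneg (ha _) (hb _), ?_⟩
  rw [coeff_mul]
  push_cast
  exact Finset.sum_congr rfl fun x _ => by rw [ha', hb']

lemma NN.one : NN (1 : ℂ⟦X⟧) := by
  intro n
  by_cases h : n = 0
  · exact ⟨1, zero_le_one, by simp [coeff_one, h]⟩
  · exact ⟨0, le_rfl, by simp [coeff_one, h]⟩

lemma NN.pow {p : ℂ⟦X⟧} (hp : NN p) (k : ℕ) : NN (p ^ k) := by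
  induction k with
  | zero => rw [pow_zero]; exact NN.one
  | succ k ih => rw [pow_succ]; exact ih.mul hp

/-- Nonnegative coefficients and constant coefficient one. -/
def NN1 (p : ℂ⟦X⟧) : Prop := NN p ∧ p.coeff 0 = 1

lemma NN1.mul {p q : ℂ⟦X⟧} (hp : NN1 p) (hq : NN1 q) : NN1 (p * q) :=
  ⟨hp.1.mul hq.1, by rw [coeff_mul]; simp [hp.2, hq.2]⟩

lemma NN1.one : NN1 (1 : ℂ⟦X⟧) := ⟨NN.one, by simp⟩

lemma NN1.pow {p : ℂ⟦X⟧} (hp : NN1 p) (k : ℕ) : NN1 (p ^ k) := by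
  induction k with
  | zero => rw [pow_zero]; exact NN1.one
  | succ k ih => rw [pow_succ]; exact ih.mul hp

/-- All coefficients positive. -/
def PP (p : ℂ⟦X⟧) : Prop := ∀ n, ∃ r : ℝ, 0 < r ∧ p.coeff n = (r : ℂ)

lemma PP.mul_NN1 {p q : ℂ⟦X⟧} (hp : PP p) (hq : NN1 q) : PP (p * q) := by
  intro n
  obtain ⟨hq, hq0⟩ := hq
  choose a ha ha' using hp
  choose b hb hb' using hq
  have hb0 : b 0 = 1 := by
    have := (hb' 0).symm.trans hq0
    exact_mod_cast this
  refine ⟨∑ x ∈ Finset.HasAntidiagonal.antidiagonal n, a x.1 * b x.2, ?_, ?_⟩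
  · refine Finset.sum_pos' (fun x _ => mul_nonneg (ha _).le (hb _)) ⟨(n, 0), by simp, ?_⟩
    rw [hb0, mul_one]
    exact ha n
  · rw [coeff_mul]
    push_cast
    exact Finset.sum_congr rfl fun x _ => by rw [ha', hb']

/-- Inverse of a series `1 - g` with `g` having nonnegative coefficients. -/
lemma NN1.inv {p : ℂ⟦X⟧} (h0 : p.coeff 0 = 1)
    (h : ∀ n, 1 ≤ n → ∃ r : ℝ, 0 ≤ r ∧ p.coeff n = -(r : ℂ)) : NN1 p⁻¹ := by
  have hc : constantCoeff p = 1 := by rw [← coeff_zero_eq_constantCoeff_apply]; exact h0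
  refine ⟨?_, ?_⟩
  · intro n
    induction n using Nat.strong_induction_on with
    | _ n ih =>
      rw [coeff_inv, hc]
      by_cases hn : n = 0
      · exact ⟨1, zero_le_one, by simp [hn]⟩
      · rw [if_neg hn]
        have key : ∀ x ∈ Finset.HasAntidiagonal.antidiagonal n, ∃ r : ℝ, 0 ≤ r ∧
            (if x.2 < n then coeff x.1 p * coeff x.2 p⁻¹ else 0) = -(r : ℂ) := by
          intro x hx
          by_cases hx2 : x.2 < n
          · rw [if_pos hx2]
            rw [Finset.HasAntidiagonal.mem_antidiagonal] at hx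
            obtain ⟨r, hr, hr'⟩ := h x.1 (by omega)
            obtain ⟨t, ht, ht'⟩ := ih x.2 hx2
            exact ⟨r * t, mul_nonneg hr ht, by rw [hr', ht']; push_cast; ring⟩
          · rw [if_neg hx2]
            exact ⟨0, le_rfl, by simp⟩
        choose! r hr hr' using key
        refine ⟨∑ x ∈ Finset.HasAntidiagonal.antidiagonal n, r x, Finset.sum_nonneg hr, ?_⟩
        rw [Finset.sum_congr rfl hr']
        push_cast
        simp
  · rw [coeff_inv, hc]; simp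

/-- Inverse of `1 - g` with `g` having nonnegative coefficients and positive first coefficient. -/
lemma PP.inv {p : ℂ⟦X⟧} (h0 : p.coeff 0 = 1)
    (h : ∀ n, 1 ≤ n → ∃ r : ℝ, 0 < r ∧ p.coeff n = -(r : ℂ)) : PP p⁻¹ := by
  have hc : constantCoeff p = 1 := by rw [← coeff_zero_eq_constantCoeff_apply]; exact h0
  intro n
  induction n using Nat.strong_induction_on with
  | _ n ih =>
    rw [coeff_inv, hc]
    by_cases hn : n = 0
    · exact ⟨1, zero_lt_one, by simp [hn]⟩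
    · rw [if_neg hn]
      have key : ∀ x ∈ Finset.HasAntidiagonal.antidiagonal n, ∃ r : ℝ, 0 ≤ r ∧ (x.2 < n → 0 < r) ∧
          (if x.2 < n then coeff x.1 p * coeff x.2 p⁻¹ else 0) = -(r : ℂ) := by
        intro x hx
        by_cases hx2 : x.2 < n
        · rw [if_pos hx2]
          rw [Finset.HasAntidiagonal.mem_antidiagonal] at hx
          obtain ⟨r, hr, hr'⟩ := h x.1 (by omega)
          obtain ⟨t, ht, ht'⟩ := ih x.2 hx2
          exact ⟨r * t, (mul_pos hr ht).le, fun _ => mul_pos hr ht,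
            by rw [hr', ht']; push_cast; ring⟩
        · rw [if_neg hx2]
          exact ⟨0, le_rfl, fun h => absurd h hx2, by simp⟩
      choose! r hr hr1 hr' using key
      refine ⟨∑ x ∈ Finset.HasAntidiagonal.antidiagonal n, r x, ?_, ?_⟩
      · refine Finset.sum_pos' hr ⟨(n, 0), by simp, ?_⟩
        exact hr1 _ (by simp) (by simp; omega)
      · rw [Finset.sum_congr rfl hr']
        push_cast
        simp

/-! ### The series `d = Δ / q` -/

/-- The series `d = Δ / q`. -/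
noncomputable def dd : ℂ⟦X⟧ := PowerSeries.mk fun n => dl.coeff (n + 1)

lemma dl_coeff_zero : dl.coeff 0 = 0 := by
  have h := congrArg (PowerSeries.coeff 0) dl_eq
  have h4 := coeff_e4 0
  have h6 := coeff_e6 0
  simp only [if_true] at h4 h6
  rw [coeff_smul, map_sub, coeff_zero_eq_constantCoeff_apply (e4 ^ 3),
    coeff_zero_eq_constantCoeff_apply (e6 ^ 2), map_pow, map_pow,
    ← coeff_zero_eq_constantCoeff_apply, ← coeff_zero_eq_constantCoeff_apply, h4, h6] at h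
  simpa using h

lemma dl_eq_X_mul : dl = X * dd := by
  ext n
  cases n with
  | zero => rw [dl_coeff_zero]; simp
  | succ n => rw [coeff_succ_X_mul]; simp [dd]

lemma dd_coeff_zero : dd.coeff 0 = 1 := by
  simp only [dd, coeff_mk, zero_add]
  exact ModularForm.discriminant_qExpansion_coeff_one

lemma th_dl : th dl = e2 * dl := by
  have h := congrArg th dl_eq
  have hs : ∀ (c : ℂ) (p : ℂ⟦X⟧), th (c • p) = c • th p := by
    intro c p
    ext n
    rw [coeff_th, coeff_smul, coeff_smul, coeff_th]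
    simp only [smul_eq_mul]; ring
  have hsub : ∀ (p r : ℂ⟦X⟧), th (p - r) = th p - th r := by
    intro p r
    unfold th
    rw [map_sub, mul_sub]
  have e : (1728 : ℂ) • th dl = (1728 : ℂ) • (e2 * dl) := by
    rw [← hs, h, hsub, pow_succ e4 2, pow_two, pow_two, th_mul, th_mul, th_mul, th4, th6]
    rw [← mul_smul_comm, dl_eq]
    simp only [smul_eq_C_mul]
    have h3 : (C (3⁻¹ : ℂ) : ℂ⟦X⟧) * 3 = 1 := by
      rw [show (3 : ℂ⟦X⟧) = C (3 : ℂ) from (map_ofNat C 3).symm, ← map_mul]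
      norm_num
    have h2 : (C (2⁻¹ : ℂ) : ℂ⟦X⟧) * 2 = 1 := by
      rw [show (2 : ℂ⟦X⟧) = C (2 : ℂ) from (map_ofNat C 2).symm, ← map_mul]
      norm_num
    linear_combination (e4 ^ 2 * (e2 * e4 - e6)) * h3 - (e6 * (e2 * e6 - e4 * e4)) * h2
  have h0 : (1728 : ℂ) ≠ 0 := by norm_num
  have := congrArg (fun p => (1728 : ℂ)⁻¹ • p) e
  simpa [smul_smul, h0] using this

lemma th_dd : th dd = (e2 - 1) * dd := by
  have h := th_dl
  rw [dl_eq_X_mul, th_mul] at h
  have hX : th (X : ℂ⟦X⟧) = X := by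
    unfold th
    rw [derivative_X, mul_one]
  rw [hX] at h
  have : (X : ℂ⟦X⟧) * (th dd) = X * ((e2 - 1) * dd) := by linear_combination h
  exact mul_left_cancel₀ X_ne_zero this

/-- The inverse of `d`. -/
noncomputable def hh : ℂ⟦X⟧ := dd⁻¹

lemma dd_mul_hh : dd * hh = 1 := by
  unfold hh
  apply PowerSeries.mul_inv_cancel
  rw [← coeff_zero_eq_constantCoeff_apply, dd_coeff_zero]
  exact one_ne_zero

lemma th_one : th (1 : ℂ⟦X⟧) = 0 := by
  unfold th
  rw [Derivation.map_one_eq_zero, mul_zero]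

lemma th_hh : th hh = (1 - e2) * hh := by
  have h := congrArg th dd_mul_hh
  rw [th_mul, th_dd, th_one] at h
  have h1 := dd_mul_hh
  have : dd * th hh = dd * ((1 - e2) * hh) := by linear_combination h
  have hne : dd ≠ 0 := by
    intro h0
    rw [h0, zero_mul] at h1
    exact zero_ne_one h1
  exact mul_left_cancel₀ hne this

lemma NN1_hh : NN1 hh := by
  have h0 : hh.coeff 0 = 1 := by
    have h := congrArg (PowerSeries.coeff 0) dd_mul_hh
    rw [coeff_mul] at h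
    simpa [dd_coeff_zero] using h
  refine ⟨?_, h0⟩
  intro n
  induction n using Nat.strong_induction_on with
  | _ n ih =>
    by_cases hn : n = 0
    · subst hn
      exact ⟨1, zero_le_one, by rw [h0]; simp⟩
    · have h := congrArg (PowerSeries.coeff n) th_hh
      rw [coeff_th, coeff_mul] at h
      have key : ∀ x ∈ Finset.HasAntidiagonal.antidiagonal n, ∃ r : ℝ, 0 ≤ r ∧
          (coeff x.1 (1 - e2) * coeff x.2 hh) = (r : ℂ) := by
        intro x hx
        rw [Finset.HasAntidiagonal.mem_antidiagonal] at hx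
        by_cases hx1 : x.1 = 0
        · refine ⟨0, le_rfl, ?_⟩
          rw [hx1, map_sub, coeff_e2]
          simp
        · obtain ⟨t, ht, ht'⟩ := ih x.2 (by omega)
          refine ⟨24 * ArithmeticFunction.sigma 1 x.1 * t, by positivity, ?_⟩
          rw [map_sub, coeff_e2, ht', if_neg hx1, coeff_one, if_neg hx1]
          push_cast; ring
      choose! r hr hr' using key
      rw [Finset.sum_congr rfl hr'] at h
      have hnn : (n : ℂ) ≠ 0 := by exact_mod_cast hn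
      refine ⟨(∑ x ∈ Finset.HasAntidiagonal.antidiagonal n, r x) / n, by
        apply div_nonneg (Finset.sum_nonneg hr) (by positivity), ?_⟩
      push_cast
      field_simp
      rw [mul_comm]
      exact h

/-! ### The residue computation -/

lemma e4_coeff_zero : e4.coeff 0 = 1 := by rw [coeff_e4]; simp
lemma e6_coeff_zero : e6.coeff 0 = 1 := by rw [coeff_e6]; simp

lemma hh_mul_dd : hh * dd = 1 := by rw [mul_comm]; exact dd_mul_hh

/-- The inverse of `E₆`. -/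
noncomputable def g6 : ℂ⟦X⟧ := e6⁻¹

lemma e6_mul_g6 : e6 * g6 = 1 := by
  unfold g6
  apply PowerSeries.mul_inv_cancel
  rw [← coeff_zero_eq_constantCoeff_apply, e6_coeff_zero]
  exact one_ne_zero

lemma PP_g6 : PP g6 := by
  refine PP.inv e6_coeff_zero fun n hn => ?_
  refine ⟨504 * ArithmeticFunction.sigma 5 n, ?_, ?_⟩
  · have : 0 < ArithmeticFunction.sigma 5 n := ArithmeticFunction.sigma_pos 5 n (by omega)
    positivity
  · rw [coeff_e6, if_neg (by omega)]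
    push_cast; ring

lemma NN1_g6 : NN1 g6 := by
  refine NN1.inv e6_coeff_zero fun n hn => ?_
  refine ⟨504 * ArithmeticFunction.sigma 5 n, by positivity, ?_⟩
  rw [coeff_e6, if_neg (by omega)]
  push_cast; ring

lemma NN1_e4 : NN1 e4 := by
  refine ⟨fun n => ?_, e4_coeff_zero⟩
  rw [coeff_e4]
  by_cases hn : n = 0
  · exact ⟨1, zero_le_one, by simp [hn]⟩
  · exact ⟨240 * ArithmeticFunction.sigma 3 n, by positivity, by rw [if_neg hn]; push_cast; ring⟩

/-- `v = q (j - 1728) = E₆² / d`. -/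
noncomputable def vv : ℂ⟦X⟧ := e6 ^ 2 * hh
/-- `w = E₄² / E₆`. -/
noncomputable def ww : ℂ⟦X⟧ := e4 ^ 2 * g6

lemma coeff_zero_mul' (p q : ℂ⟦X⟧) : (p * q).coeff 0 = p.coeff 0 * q.coeff 0 := by
  rw [coeff_mul]; simp

lemma ww_coeff_zero : ww.coeff 0 = 1 := by
  have h1 := (NN1_e4.pow 2).2
  rw [ww, coeff_zero_mul', h1, NN1_g6.2, one_mul]

lemma vv_mul_ww : vv * ww = vv - th vv := by
  have h2 : (C (2⁻¹ : ℂ) : ℂ⟦X⟧) * 2 = 1 := by
    rw [show (2 : ℂ⟦X⟧) = C (2 : ℂ) from (map_ofNat C 2).symm, ← map_mul]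
    norm_num
  have hg := e6_mul_g6
  unfold vv ww
  rw [th_mul, pow_two e6, th_mul, th6, th_hh, smul_eq_C_mul]
  linear_combination (e6 * e4 ^ 2 * hh) * hg + (e6 * (e2 * e6 - e4 * e4) * hh) * h2

lemma th_pow (p : ℂ⟦X⟧) (n : ℕ) : th (p ^ (n + 1)) = (n + 1 : ℂ⟦X⟧) * p ^ n * th p := by
  induction n with
  | zero => simp
  | succ n ih =>
    rw [pow_succ, th_mul, ih]
    push_cast; ring

/-- The key vanishing: the constant term of `(j - 1728)^n E₄² / E₆` is zero for `n ≥ 1`. -/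
lemma residue (n : ℕ) (hn : 1 ≤ n) : (vv ^ n * ww).coeff n = 0 := by
  obtain ⟨k, rfl⟩ : ∃ k, n = k + 1 := ⟨n - 1, by omega⟩
  have h1 : ((k : ℂ⟦X⟧) + 1) * (vv ^ (k + 1) * ww) =
      ((k : ℂ⟦X⟧) + 1) * vv ^ (k + 1) - th (vv ^ (k + 1)) := by
    rw [th_pow]
    have := vv_mul_ww
    linear_combination ((k : ℂ⟦X⟧) + 1) * vv ^ k * this
  have h2 := congrArg (PowerSeries.coeff (k + 1)) h1
  have hc : ((k : ℂ⟦X⟧) + 1) = C ((k : ℂ) + 1) := by
    rw [map_add, map_one, map_natCast]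
  rw [map_sub, coeff_th, hc, coeff_C_mul, coeff_C_mul] at h2
  push_cast at h2
  rw [sub_self] at h2
  have hk : ((k : ℂ) + 1) ≠ 0 := by exact_mod_cast Nat.succ_ne_zero k
  exact (mul_eq_zero.mp h2).resolve_left hk

/-- The expression of the coefficients. `ek` is the q-expansion of `E_{k'}`, `gk` its inverse. -/
lemma extraction (ek gk : ℂ⟦X⟧) (hek : ek * gk = 1) (ℓ m : ℕ) (a : ℕ → ℂ)
    (hP : ∀ i ≤ ℓ, (ek * ∑ j ∈ Finset.range (ℓ + 1), C (a j) * (e6 ^ (2 * j) * dl ^ (ℓ - j))).coeff i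
      = if i = m then 1 else 0) (i : ℕ) (hi : i ≤ ℓ) :
    a i = (X ^ (m + i) * (hh ^ (ℓ - i) * (e4 ^ 2 * gk) * g6 ^ (2 * i + 1))).coeff ℓ := by
  set P := ek * ∑ j ∈ Finset.range (ℓ + 1), C (a j) * (e6 ^ (2 * j) * dl ^ (ℓ - j)) with hPd
  set T := X ^ i * (hh ^ (ℓ - i) * (ww * g6 ^ (2 * i)) * gk) with hT
  -- the product P * T
  have hPT1 : (P * T).coeff ℓ = (X ^ m * T).coeff ℓ := by
    have hdiv : X ^ (ℓ + 1) ∣ P - (if m ≤ ℓ then X ^ m else 0 : ℂ⟦X⟧) := by
      rw [X_pow_dvd_iff]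
      intro n hn
      rw [map_sub, hP n (by omega)]
      split_ifs with h1 h2 h2
      · rw [coeff_X_pow, if_pos h1, sub_self]
      · omega
      · rw [coeff_X_pow, if_neg h1, sub_self]
      · simp
    obtain ⟨R, hR⟩ := hdiv
    have hPe : P = (if m ≤ ℓ then X ^ m else 0 : ℂ⟦X⟧) + X ^ (ℓ + 1) * R := by rw [← hR]; ring
    rw [hPe, add_mul, map_add]
    have h1 : (X ^ (ℓ + 1) * R * T).coeff ℓ = 0 := by
      rw [mul_assoc, coeff_X_pow_mul', if_neg (by omega)]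
    rw [h1, add_zero]
    split_ifs with h2
    · rfl
    · rw [zero_mul, map_zero, coeff_X_pow_mul', if_neg h2]
  have hterm : ∀ j ∈ Finset.range (ℓ + 1), (ek * (C (a j) * (e6 ^ (2 * j) * dl ^ (ℓ - j))) * T).coeff ℓ =
      if j = i then a i else 0 := by
    intro j hj
    rw [Finset.mem_range] at hj
    rw [dl_eq_X_mul, mul_pow]
    rcases lt_trichotomy j i with h | h | h
    · -- j < i
      rw [if_neg (by omega)]
      have e : ek * (C (a j) * (e6 ^ (2 * j) * (X ^ (ℓ - j) * dd ^ (ℓ - j)))) * T =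
          X ^ (ℓ - j + i) * (ek * (C (a j) * (e6 ^ (2 * j) * dd ^ (ℓ - j))) *
            (hh ^ (ℓ - i) * (ww * g6 ^ (2 * i)) * gk)) := by
        rw [hT, pow_add]; ring
      rw [e, coeff_X_pow_mul', if_neg (by omega)]
    · -- j = i
      subst h
      rw [if_pos rfl]
      have h1 : e6 ^ (2 * j) * g6 ^ (2 * j) = 1 := by rw [← mul_pow, e6_mul_g6, one_pow]
      have h2 : dd ^ (ℓ - j) * hh ^ (ℓ - j) = 1 := by rw [← mul_pow, dd_mul_hh, one_pow]
      have e : ek * (C (a j) * (e6 ^ (2 * j) * (X ^ (ℓ - j) * dd ^ (ℓ - j)))) * T =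
          X ^ ℓ * (C (a j) * ww) := by
        have h3 : (X : ℂ⟦X⟧) ^ ℓ = X ^ (ℓ - j) * X ^ j := by rw [← pow_add]; congr 1; omega
        rw [hT, h3]
        calc _ = (ek * gk) * (e6 ^ (2 * j) * g6 ^ (2 * j)) * (dd ^ (ℓ - j) * hh ^ (ℓ - j)) *
              (X ^ (ℓ - j) * X ^ j * (C (a j) * ww)) := by ring
          _ = _ := by rw [hek, h1, h2]; ring
      rw [e, coeff_X_pow_mul', if_pos le_rfl, Nat.sub_self, coeff_C_mul, ww_coeff_zero, mul_one]
    · -- j > i
      rw [if_neg (by omega)]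
      obtain ⟨n, rfl⟩ : ∃ n, j = i + n := ⟨j - i, by omega⟩
      have h1 : e6 ^ (2 * i) * g6 ^ (2 * i) = 1 := by rw [← mul_pow, e6_mul_g6, one_pow]
      have h2 : dd ^ (ℓ - (i + n)) * hh ^ (ℓ - (i + n)) = 1 := by
        rw [← mul_pow, dd_mul_hh, one_pow]
      have h4 : hh ^ (ℓ - i) = hh ^ (ℓ - (i + n)) * hh ^ n := by rw [← pow_add]; congr 1; omega
      have h5 : e6 ^ (2 * (i + n)) = e6 ^ (2 * i) * (e6 ^ 2) ^ n := by
        rw [← pow_mul, ← pow_add]; congr 1; ring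
      have h6 : (X : ℂ⟦X⟧) ^ (ℓ - n) = X ^ (ℓ - (i + n)) * X ^ i := by
        rw [← pow_add]; congr 1; omega
      have e : ek * (C (a (i + n)) * (e6 ^ (2 * (i + n)) * (X ^ (ℓ - (i + n)) * dd ^ (ℓ - (i + n))))) * T =
          X ^ (ℓ - n) * (C (a (i + n)) * (vv ^ n * ww)) := by
        rw [hT, h6, vv, mul_pow, h4, h5]
        calc _ = (ek * gk) * (e6 ^ (2 * i) * g6 ^ (2 * i)) *
              (dd ^ (ℓ - (i + n)) * hh ^ (ℓ - (i + n))) *
              (X ^ (ℓ - (i + n)) * X ^ i * (C (a (i + n)) * ((e6 ^ 2) ^ n * hh ^ n * ww))) := by ring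
          _ = _ := by rw [hek, h1, h2]; ring
      rw [e, coeff_X_pow_mul', if_pos (by omega), coeff_C_mul]
      have : ℓ - (ℓ - n) = n := by omega
      rw [this, residue n (by omega), mul_zero]
  have hPT2 : (P * T).coeff ℓ = a i := by
    rw [hPd, Finset.mul_sum, Finset.sum_mul, map_sum, Finset.sum_congr rfl hterm,
      Finset.sum_ite_eq' (Finset.range (ℓ + 1)) i, if_pos (Finset.mem_range.mpr (by omega))]
  rw [← hPT2, hPT1, hT]
  congr 1
  rw [ww, pow_succ g6, pow_add X m i]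
  ring

/-- Positivity and vanishing of the coefficients. -/
lemma coeff_pos (gk : ℂ⟦X⟧) (hgk : NN1 (e4 ^ 2 * gk)) (ℓ m i : ℕ) (him : m + i ≤ ℓ) :
    ∃ r : ℝ, 0 < r ∧
      (X ^ (m + i) * (hh ^ (ℓ - i) * (e4 ^ 2 * gk) * g6 ^ (2 * i + 1))).coeff ℓ = (r : ℂ) := by
  rw [coeff_X_pow_mul', if_pos him]
  have h1 : PP (g6 * (hh ^ (ℓ - i) * (e4 ^ 2 * gk) * g6 ^ (2 * i))) :=
    PP_g6.mul_NN1 (((NN1_hh.pow _).mul hgk).mul (NN1_g6.pow _))
  have h2 : hh ^ (ℓ - i) * (e4 ^ 2 * gk) * g6 ^ (2 * i + 1) =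
      g6 * (hh ^ (ℓ - i) * (e4 ^ 2 * gk) * g6 ^ (2 * i)) := by rw [pow_succ]; ring
  rw [h2]
  exact h1 _

lemma coeff_zero_of_lt (gk : ℂ⟦X⟧) (ℓ m i : ℕ) (him : ℓ < m + i) :
    (X ^ (m + i) * (hh ^ (ℓ - i) * (e4 ^ 2 * gk) * g6 ^ (2 * i + 1))).coeff ℓ = 0 := by
  rw [coeff_X_pow_mul', if_neg (by omega)]

lemma coeff_top (gk : ℂ⟦X⟧) (hgk : NN1 (e4 ^ 2 * gk)) (ℓ m i : ℕ) (him : m + i = ℓ) :
    (X ^ (m + i) * (hh ^ (ℓ - i) * (e4 ^ 2 * gk) * g6 ^ (2 * i + 1))).coeff ℓ = 1 := by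
  rw [coeff_X_pow_mul', if_pos (by omega), him, Nat.sub_self]
  exact (((NN1_hh.pow _).mul hgk).mul (NN1_g6.pow _)).2

end Pool.Agent.R322.QD
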