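import Pool.Agent.R322.MillerNum

/-!
# Evaluation of the constant term of the Faber polynomial of `f_{3636,191}`
-/

set_option autoImplicit false

open PowerSeries

namespace Pool.Agent.R322.QD.Num

/-- The list `L` consists of the coefficients of `p` in degrees `L.length - 1, …, 0`. -/
def Rep (p : ℂ⟦X⟧) : List ℤ → Prop
  | [] => True
  | c :: r => p.coeff r.length = (c : ℂ) ∧ Rep p r

lemma dot_eq (p : ℂ⟦X⟧) (r : List ℤ) : ∀ (s : List ℤ) (a : ℕ → ℂ),
    (∀ j < s.length, a j = (s.getD j 0 : ℂ)) → Rep p r → r.length ≤ s.length →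
    (dot s r : ℂ) = ∑ j ∈ Finset.range r.length, a j * p.coeff (r.length - 1 - j) := by
  induction r with
  | nil => intro s a _ _ _; cases s <;> simp [dot]
  | cons c r ih =>
    intro s a hs hr hl
    cases s with
    | nil => simp at hl
    | cons x s =>
      have h1 := ih s (fun j => a (j + 1)) (fun j hj => by
        have := hs (j + 1) (by simpa using hj)
        simpa using this) hr.2 (by simpa using hl)
      rw [dot]
      push_cast
      rw [h1, List.length_cons, Finset.sum_range_succ']
      have h0 := hs 0 (by simp)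
      rw [List.getD_cons_zero] at h0
      rw [add_comm]
      congr 1
      · refine Finset.sum_congr rfl fun j hj => ?_
        rw [Finset.mem_range] at hj
        have e : r.length - 1 - j = r.length + 1 - 1 - (j + 1) := by omega
        rw [e]
      · rw [h0]
        simp only [add_tsub_cancel_right, tsub_zero]
        rw [hr.1]

lemma rep_getD (p : ℂ⟦X⟧) (L : List ℤ) (h : Rep p L) :
    ∀ j < L.length, p.coeff j = (L.reverse.getD j 0 : ℂ) := by
  induction L with
  | nil => intro j hj; simp at hj
  | cons c r ih =>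
    intro j hj
    rw [List.length_cons] at hj
    rw [List.reverse_cons]
    by_cases hj' : j < r.length
    · rw [ih h.2 j hj', List.getD_append _ _ _ _ (by simpa using hj')]
    · have : j = r.length := by omega
      subst this
      rw [h.1, List.getD_append_right _ _ _ _ (by simp)]
      simp

lemma dot_comm (s r : List ℤ) : dot s r = dot r s := by
  induction s generalizing r with
  | nil => cases r <;> rfl
  | cons x s ih =>
    cases r with
    | nil => rfl
    | cons c r => rw [dot, dot, ih, mul_comm]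

lemma coeff_one_sub_e2 (n : ℕ) : (1 - e2).coeff (n + 1) = 24 * ArithmeticFunction.sigma 1 (n + 1) := by
  rw [map_sub, coeff_e2, if_neg (by omega), coeff_one, if_neg (by omega)]
  ring

lemma coeff_one_sub_e2_zero : (1 - e2).coeff 0 = 0 := by
  rw [map_sub, coeff_e2]; simp

lemma hh_pow_rec (l : ℕ) (n : ℕ) :
    ((n : ℂ) + 1) * (hh ^ (l + 1)).coeff (n + 1) = 24 * (l + 1) *
      ∑ j ∈ Finset.range (n + 1), (ArithmeticFunction.sigma 1 (j + 1) : ℂ) *
        (hh ^ (l + 1)).coeff (n - j) := by
  have h : th (hh ^ (l + 1)) = C ((l : ℂ) + 1) * ((1 - e2) * hh ^ (l + 1)) := by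
    rw [th_pow, th_hh, map_add, map_one, map_natCast]
    ring
  have h1 := congrArg (PowerSeries.coeff (n + 1)) h
  rw [coeff_th, coeff_C_mul, coeff_mul, Finset.Nat.sum_antidiagonal_eq_sum_range_succ_mk,
    Finset.sum_range_succ'] at h1
  simp only [coeff_one_sub_e2_zero, zero_mul, add_zero, coeff_one_sub_e2] at h1
  push_cast at h1
  rw [h1, Finset.mul_sum, Finset.mul_sum]
  refine Finset.sum_congr rfl fun j hj => ?_
  ring

lemma ww4_mul_e4 : e4 * ww4 = e6 := by
  rw [ww4, mul_comm e6, ← mul_assoc, e4_mul_gg4, one_mul]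

lemma ww4_rec (n : ℕ) :
    ww4.coeff (n + 1) = -504 * (ArithmeticFunction.sigma 5 (n + 1) : ℂ) - 240 *
      ∑ j ∈ Finset.range (n + 1), (ArithmeticFunction.sigma 3 (j + 1) : ℂ) *
        ww4.coeff (n - j) := by
  have h1 := congrArg (PowerSeries.coeff (n + 1)) ww4_mul_e4
  rw [coeff_mul, Finset.Nat.sum_antidiagonal_eq_sum_range_succ_mk,
    Finset.sum_range_succ', coeff_e6, if_neg (by omega)] at h1
  simp only [e4_coeff_zero, one_mul] at h1
  rw [← h1, Finset.mul_sum]
  have h2 : ∑ k ∈ Finset.range (n + 1), (coeff (k + 1)) e4 * (coeff (n + 1 - (k + 1))) ww4 =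
      ∑ i ∈ Finset.range (n + 1), 240 * ((ArithmeticFunction.sigma 3 (i + 1) : ℂ) * (coeff (n - i)) ww4) := by
    refine Finset.sum_congr rfl fun j hj => ?_
    rw [Nat.add_sub_add_right, coeff_e4, if_neg (by omega)]
    ring
  rw [h2]
  simp

lemma rep_C (l : ℕ) (s L : List ℤ) (hs : ∀ j < s.length, ((ArithmeticFunction.sigma 1 (j + 1) : ℕ) : ℂ) = (s.getD j 0 : ℂ))
    (hL : chkC (l + 1) s L = true) (hlen : L.length ≤ s.length + 1) : Rep (hh ^ (l + 1)) L := by
  induction L with
  | nil => trivial
  | cons c r ih =>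
    rw [chkC, Bool.and_eq_true] at hL
    rw [List.length_cons] at hlen
    have ihr := ih hL.2 (by omega)
    refine ⟨?_, ihr⟩
    cases r with
    | nil =>
      have h1 := hL.1
      simp only [List.isEmpty_nil, if_true, beq_iff_eq] at h1
      rw [h1, List.length_nil, (NN1_hh.pow _).2]
      simp
    | cons c' r =>
      have h1 := hL.1
      rw [List.isEmpty_cons, if_neg (by simp), beq_iff_eq] at h1
      have h2 := dot_eq (hh ^ (l + 1)) (c' :: r) s _ hs ihr (by simpa using hlen)
      rw [List.length_cons] at h1 h2 ⊢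
      have h3 := hh_pow_rec l r.length
      simp only [add_tsub_cancel_right] at h2
      rw [← h2] at h3
      have h4 : (c : ℂ) * ((r.length : ℂ) + 1) = 24 * ((l : ℂ) + 1) * (dot s (c' :: r) : ℂ) := by
        exact_mod_cast h1
      rw [← h4, mul_comm] at h3
      have hne : ((r.length : ℂ) + 1) ≠ 0 := by exact_mod_cast Nat.succ_ne_zero r.length
      exact mul_right_cancel₀ hne h3

lemma rep_W (s5' s3' L : List ℤ)
    (hs5 : ∀ j < s5'.length, ((ArithmeticFunction.sigma 5 (j + 1) : ℕ) : ℂ) = (s5'.getD j 0 : ℂ))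
    (hs3 : ∀ j < s3'.length, ((ArithmeticFunction.sigma 3 (j + 1) : ℕ) : ℂ) = (s3'.getD j 0 : ℂ))
    (hL : chkW s5' s3' L = true) (hlen : L.length ≤ s3'.length + 1) (hlen5 : L.length ≤ s5'.length + 1) :
    Rep ww4 L := by
  induction L with
  | nil => trivial
  | cons c r ih =>
    rw [chkW, Bool.and_eq_true] at hL
    rw [List.length_cons] at hlen hlen5
    have ihr := ih hL.2 (by omega) (by omega)
    refine ⟨?_, ihr⟩
    cases r with
    | nil =>
      have h1 := hL.1
      simp only [List.isEmpty_nil, if_true, beq_iff_eq] at h1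
      rw [h1, List.length_nil, ww4_coeff_zero]
      simp
    | cons c' r =>
      have h1 := hL.1
      rw [List.isEmpty_cons, if_neg (by simp), beq_iff_eq] at h1
      have h2 := dot_eq ww4 (c' :: r) s3' _ hs3 ihr (by simpa using hlen)
      rw [List.length_cons] at h1 h2 hlen5 ⊢
      have h3 := ww4_rec r.length
      simp only [add_tsub_cancel_right] at h2 h1
      rw [h3, ← h2, hs5 r.length (by omega), h1]
      push_cast
      ring

/-- The coefficient of `q^112` in `(q/Δ)^303 E₆ / E₄` is negative. -/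
theorem b0_neg : ∃ r : ℝ, r < 0 ∧ (hh ^ 303 * ww4).coeff 112 = (r : ℂ) := by
  have hC : Rep (hh ^ (302 + 1)) LC := by
    refine rep_C 302 s1 LC (fun j hj => ?_) ?_ (by rw [len_C, len_1])
    · rw [len_1] at hj
      rw [s1_ok j hj]
      push_cast; rfl
    · exact_mod_cast chkC_true
  have hW : Rep ww4 LW := by
    refine rep_W s5 s3 LW (fun j hj => ?_) (fun j hj => ?_) chkW_true (by rw [len_W, len_3])
      (by rw [len_W, len_5])
    · rw [len_5] at hj
      rw [s5_ok j hj]
      push_cast; rfl
    · rw [len_3] at hj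
      rw [s3_ok j hj]
      push_cast; rfl
  have h1 := dot_eq (hh ^ (302 + 1)) LC LW.reverse (fun j => ww4.coeff j) (fun j hj => by
    refine rep_getD ww4 LW hW j ?_
    simpa using hj) hC (by rw [List.length_reverse, len_C, len_W])
  refine ⟨((dot LC LW.reverse : ℤ) : ℝ), by exact_mod_cast neg, ?_⟩
  rw [dot_comm, mul_comm, coeff_mul, Finset.Nat.sum_antidiagonal_eq_sum_range_succ_mk]
  rw [len_C] at h1
  simp only [Nat.add_one_sub_one, Nat.reduceAdd] at h1 ⊢
  rw [Complex.ofReal_intCast]
  exact h1.symm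

end Pool.Agent.R322.QD.Num
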