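import Pool.Agent.R322.Miller

/-!
# Miller basis forms: expansion in powers of `E₆²` and `Δ`, values on the imaginary axis
-/

set_option autoImplicit false

open UpperHalfPlane hiding I
open Real Complex Filter Topology Derivative EisensteinSeries ModularForm MatrixGroups Function CuspForm
open scoped Manifold MatrixGroups ModularForm

namespace Pool.Agent.R322.QD

/-- `E₄ ^ α E₆ ^ β` as a modular form. -/
noncomputable def EE (α β : ℕ) : ModularForm 𝒮ℒ ((4 * α + 6 * β : ℕ) : ℤ) :=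
  ModularForm.mcast (by push_cast; ring) ((E₄.pow α).mul (E₆.pow β))

lemma EE_apply (α β : ℕ) (τ : ℍ) : EE α β τ = E₄ τ ^ α * E₆ τ ^ β := by
  simp only [EE, coe_mcast, coe_mul, coe_pow, Pi.mul_apply, Pi.pow_apply]

lemma qExpansion_EE (α β : ℕ) : qExpansion 1 (EE α β : ℍ → ℂ) = e4 ^ α * e6 ^ β := by
  simp only [EE, ModularForm.qExpansion_mcast]
  rw [ModularForm.qExpansion_mul one_pos one_mem_strictPeriods_SL,
    ModularForm.qExpansion_pow one_pos one_mem_strictPeriods_SL,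
    ModularForm.qExpansion_pow one_pos one_mem_strictPeriods_SL]
  rfl

lemma coeff_zero_e46 (α β : ℕ) : (e4 ^ α * e6 ^ β).coeff 0 = 1 := by
  rw [PowerSeries.coeff_zero_eq_constantCoeff_apply, map_mul, map_pow, map_pow,
    ← PowerSeries.coeff_zero_eq_constantCoeff_apply, ← PowerSeries.coeff_zero_eq_constantCoeff_apply,
    e4_coeff_zero, e6_coeff_zero]
  simp

lemma EE_ne_zero (α β : ℕ) : EE α β ≠ 0 := by
  intro h
  have h1 : qExpansion 1 (EE α β : ℍ → ℂ) = 0 :=
    (ModularForm.qExpansion_eq_zero_iff one_pos one_mem_strictPeriods_SL _).mpr h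
  rw [qExpansion_EE] at h1
  have h2 := coeff_zero_e46 α β
  rw [h1] at h2
  simp at h2

/-- Every form of weight `12 ℓ + 4 α + 6 β` (`α ≤ 2`, `β ≤ 1`) is
`E₄^α E₆^β ∑ a_i E₆^{2i} Δ^{ℓ-i}`. -/
lemma structure_form (α β : ℕ) (hα : α ≤ 2) (hβ : β ≤ 1) (ℓ : ℕ) :
    ∀ f : ModularForm 𝒮ℒ ((12 * ℓ + (4 * α + 6 * β) : ℕ) : ℤ), ∃ a : ℕ → ℂ, ∀ τ : ℍ,
      f τ = E₄ τ ^ α * E₆ τ ^ β *
        ∑ i ∈ Finset.range (ℓ + 1), a i * (E₆ τ ^ (2 * i) * ModularForm.discriminant τ ^ (ℓ - i)) := by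
  induction ℓ with
  | zero =>
    intro f
    have hrank : Module.finrank ℂ (ModularForm 𝒮ℒ ((4 * α + 6 * β : ℕ) : ℤ)) = 1 := by
      apply Module.finrank_eq_of_rank_eq
      rw [dimension_level_one (4 * α + 6 * β) (by
        rw [Nat.even_iff]; omega)]
      interval_cases α <;> interval_cases β <;> norm_num [Nat.ModEq]
    have h12 : ((12 * 0 + (4 * α + 6 * β) : ℕ) : ℤ) = ((4 * α + 6 * β : ℕ) : ℤ) := by
      push_cast; ring
    obtain ⟨c, hc⟩ := (finrank_eq_one_iff_of_nonzero' (EE α β) (EE_ne_zero α β)).mp hrank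
      (ModularForm.mcast h12 f)
    refine ⟨fun _ => c, fun τ => ?_⟩
    have h1 : (c • EE α β) τ = f τ := by rw [hc]; rfl
    rw [← h1]
    simp only [smul_apply, EE_apply, smul_eq_mul]
    simp
    ring
  | succ ℓ ih =>
    intro f
    set c : ℂ := (qExpansion 1 (f : ℍ → ℂ)).coeff 0 with hc
    have hw : ((4 * α + 6 * β : ℕ) : ℤ) + ((2 * (ℓ + 1) : ℕ) : ℤ) * 6 =
        ((12 * (ℓ + 1) + (4 * α + 6 * β) : ℕ) : ℤ) := by push_cast; ring
    set B : ModularForm 𝒮ℒ ((12 * (ℓ + 1) + (4 * α + 6 * β) : ℕ) : ℤ) :=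
      ModularForm.mcast hw ((EE α β).mul (E₆.pow (2 * (ℓ + 1)))) with hB
    have hBap : ∀ τ, B τ = E₄ τ ^ α * E₆ τ ^ β * E₆ τ ^ (2 * (ℓ + 1)) := by
      intro τ
      rw [hB]
      simp only [coe_mcast, coe_mul, coe_pow, Pi.mul_apply, Pi.pow_apply, EE_apply]
    have hBq : (qExpansion 1 (B : ℍ → ℂ)).coeff 0 = 1 := by
      rw [hB, ModularForm.qExpansion_mcast,
        ModularForm.qExpansion_mul one_pos one_mem_strictPeriods_SL,
        ModularForm.qExpansion_pow one_pos one_mem_strictPeriods_SL, qExpansion_EE]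
      have : (e4 ^ α * e6 ^ β * e6 ^ (2 * (ℓ + 1))) = e4 ^ α * e6 ^ (β + 2 * (ℓ + 1)) := by ring
      show (e4 ^ α * e6 ^ β * e6 ^ (2 * (ℓ + 1))).coeff 0 = 1
      rw [this, coeff_zero_e46]
    set g := f - c • B with hg
    have hg0 : (qExpansion 1 (g : ℍ → ℂ)).coeff 0 = 0 := by
      rw [hg, FunLike.coe_sub, ModularForm.qExpansion_sub one_pos one_mem_strictPeriods_SL,
        FunLike.coe_smul, ModularForm.qExpansion_smul one_pos one_mem_strictPeriods_SL, map_sub,
        PowerSeries.coeff_smul, hBq, smul_eq_mul, mul_one, hc, sub_self]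
    have hw2 : ((12 * (ℓ + 1) + (4 * α + 6 * β) : ℕ) : ℤ) - 12 =
        ((12 * ℓ + (4 * α + 6 * β) : ℕ) : ℤ) := by push_cast; ring
    obtain ⟨a, ha⟩ := ih (ModularForm.mcast hw2 (CuspForm.discriminantEquiv (toCuspForm g hg0)))
    refine ⟨fun i => if i = ℓ + 1 then c else a i, fun τ => ?_⟩
    have h1 : g τ = ModularForm.discriminant τ *
        (CuspForm.discriminantEquiv (toCuspForm g hg0)) τ := by
      rw [CuspForm.discriminantEquiv_apply, mul_div_cancel₀ _ (discriminant_ne_zero τ)]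
      rfl
    have h2 := ha τ
    rw [coe_mcast] at h2
    rw [h2] at h1
    have h3 : f τ = g τ + c * B τ := by
      rw [hg]
      simp only [sub_apply, smul_apply, smul_eq_mul]
      ring
    rw [h3, h1, hBap, Finset.sum_range_succ _ (ℓ + 1)]
    have h4 : ∑ i ∈ Finset.range (ℓ + 1), (if i = ℓ + 1 then c else a i) *
        (E₆ τ ^ (2 * i) * ModularForm.discriminant τ ^ (ℓ + 1 - i)) =
        ModularForm.discriminant τ * ∑ i ∈ Finset.range (ℓ + 1), a i *
        (E₆ τ ^ (2 * i) * ModularForm.discriminant τ ^ (ℓ - i)) := by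
      rw [Finset.mul_sum]
      refine Finset.sum_congr rfl fun i hi => ?_
      rw [Finset.mem_range] at hi
      rw [if_neg (by omega), show ℓ + 1 - i = (ℓ - i) + 1 by omega, pow_succ]
      ring
    rw [h4]
    simp only [if_true, Nat.sub_self, pow_zero]
    ring

/-- The q-expansion of a form given as in `structure_form`. -/
lemma qExpansion_of_structure (α β ℓ : ℕ) {k : ℤ} (f : ModularForm 𝒮ℒ k) (a : ℕ → ℂ)
    (h : ∀ τ : ℍ, f τ = E₄ τ ^ α * E₆ τ ^ β *
        ∑ i ∈ Finset.range (ℓ + 1), a i * (E₆ τ ^ (2 * i) * ModularForm.discriminant τ ^ (ℓ - i))) :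
    qExpansion 1 (f : ℍ → ℂ) = (e4 ^ α * e6 ^ β) *
      ∑ i ∈ Finset.range (ℓ + 1), PowerSeries.C (a i) * (e6 ^ (2 * i) * dl ^ (ℓ - i)) := by
  -- each term is a modular form of weight 12 ℓ
  have hw : ∀ i ∈ Finset.range (ℓ + 1), ((2 * i : ℕ) : ℤ) * 6 + ((ℓ - i : ℕ) : ℤ) * 12 = 12 * ℓ := by
    intro i hi
    rw [Finset.mem_range] at hi
    have : ((ℓ - i : ℕ) : ℤ) = ℓ - i := by
      rw [Nat.cast_sub (by omega)]
    rw [this]; push_cast; ring
  have key : ∀ (n : ℕ), n ≤ ℓ + 1 → ∃ G : ModularForm 𝒮ℒ (12 * (ℓ : ℤ)),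
      (∀ τ, G τ = ∑ i ∈ Finset.range n, a i * (E₆ τ ^ (2 * i) * ModularForm.discriminant τ ^ (ℓ - i))) ∧
      qExpansion 1 (G : ℍ → ℂ) =
        ∑ i ∈ Finset.range n, PowerSeries.C (a i) * (e6 ^ (2 * i) * dl ^ (ℓ - i)) := by
    intro n
    induction n with
    | zero =>
      intro _
      refine ⟨0, fun τ => by simp, ?_⟩
      simpa using UpperHalfPlane.qExpansion_zero 1
    | succ n ih =>
      intro hn
      obtain ⟨G, hG1, hG2⟩ := ih (by omega)
      set T : ModularForm 𝒮ℒ (12 * (ℓ : ℤ)) := ModularForm.mcast (hw n (Finset.mem_range.mpr (by omega)))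
        ((E₆.pow (2 * n)).mul ((CuspForm.discriminant : ModularForm 𝒮ℒ 12).pow (ℓ - n))) with hT
      refine ⟨G + a n • T, fun τ => ?_, ?_⟩
      · rw [Finset.sum_range_succ, ← hG1]
        simp only [add_apply, smul_apply, smul_eq_mul]
        rw [hT]
        simp only [coe_mcast, coe_mul, coe_pow, Pi.mul_apply, Pi.pow_apply]
        rfl
      · rw [Finset.sum_range_succ, ← hG2, FunLike.coe_add,
          ModularForm.qExpansion_add one_pos one_mem_strictPeriods_SL, FunLike.coe_smul,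
          ModularForm.qExpansion_smul one_pos one_mem_strictPeriods_SL, PowerSeries.smul_eq_C_mul]
        congr 2
        rw [hT, ModularForm.qExpansion_mcast,
          ModularForm.qExpansion_mul one_pos one_mem_strictPeriods_SL,
          ModularForm.qExpansion_pow one_pos one_mem_strictPeriods_SL,
          ModularForm.qExpansion_pow one_pos one_mem_strictPeriods_SL]
        rfl
  obtain ⟨G, hG1, hG2⟩ := key (ℓ + 1) le_rfl
  have hfG : (f : ℍ → ℂ) = (EE α β : ℍ → ℂ) * (G : ℍ → ℂ) := by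
    funext τ
    rw [h τ, Pi.mul_apply, EE_apply, hG1]
  rw [hfG, ModularForm.qExpansion_mul_coe one_pos one_mem_strictPeriods_SL, qExpansion_EE, hG2]

end Pool.Agent.R322.QD
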