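import Pool.Agent.R322.ImAxis

/-!
# Miller forms in terms of `E₄³` and `Δ`
-/

set_option autoImplicit false

open PowerSeries

namespace Pool.Agent.R322.QD

/-- General vanishing: if `v w = v - θ v` then the `n`-th coefficient of `v ^ n w` is zero. -/
lemma residue_gen (v w : ℂ⟦X⟧) (h : v * w = v - th v) (n : ℕ) (hn : 1 ≤ n) :
    (v ^ n * w).coeff n = 0 := by
  obtain ⟨k, rfl⟩ : ∃ k, n = k + 1 := ⟨n - 1, by omega⟩
  have h1 : ((k : ℂ⟦X⟧) + 1) * (v ^ (k + 1) * w) =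
      ((k : ℂ⟦X⟧) + 1) * v ^ (k + 1) - th (v ^ (k + 1)) := by
    rw [th_pow]
    linear_combination ((k : ℂ⟦X⟧) + 1) * v ^ k * h
  have h2 := congrArg (PowerSeries.coeff (k + 1)) h1
  have hc : ((k : ℂ⟦X⟧) + 1) = C ((k : ℂ) + 1) := by
    rw [map_add, map_one, map_natCast]
  rw [map_sub, coeff_th, hc, coeff_C_mul, coeff_C_mul] at h2
  push_cast at h2
  rw [sub_self] at h2
  have hk : ((k : ℂ) + 1) ≠ 0 := by exact_mod_cast Nat.succ_ne_zero k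
  exact (mul_eq_zero.mp h2).resolve_left hk

/-- General extraction formula. -/
lemma extraction_gen (b bi w : ℂ⟦X⟧) (hb : b * bi = 1) (hw0 : w.coeff 0 = 1)
    (hres : ∀ n, 1 ≤ n → ((b * hh) ^ n * w).coeff n = 0) (ℓ m : ℕ) (a : ℕ → ℂ)
    (hP : ∀ i ≤ ℓ, (∑ j ∈ Finset.range (ℓ + 1), C (a j) * (b ^ j * dl ^ (ℓ - j))).coeff i
      = if i = m then 1 else 0) (i : ℕ) (hi : i ≤ ℓ) :
    a i = (X ^ (m + i) * (hh ^ (ℓ - i) * w * bi ^ i)).coeff ℓ := by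
  set P := ∑ j ∈ Finset.range (ℓ + 1), C (a j) * (b ^ j * dl ^ (ℓ - j)) with hPd
  set T := X ^ i * (hh ^ (ℓ - i) * (w * bi ^ i)) with hT
  have hPT1 : (P * T).coeff ℓ = (X ^ m * T).coeff ℓ := by
    have hdiv : X ^ (ℓ + 1) ∣ P - (if m ≤ ℓ then X ^ m else 0 : ℂ⟦X⟧) := by
      rw [X_pow_dvd_iff]
      intro n hn
      rw [map_sub, hP n (by omega)]
      split_ifs with h1 h2 h2
      · rw [coeff_X_pow, if_pos h1, sub_self]
      · omega
      · rw [coeff_X_pow, if_neg h1, sub_self]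
      · simp
    obtain ⟨R, hR⟩ := hdiv
    have hPe : P = (if m ≤ ℓ then X ^ m else 0 : ℂ⟦X⟧) + X ^ (ℓ + 1) * R := by rw [← hR]; ring
    rw [hPe, add_mul, map_add]
    have h1 : (X ^ (ℓ + 1) * R * T).coeff ℓ = 0 := by
      rw [mul_assoc, coeff_X_pow_mul', if_neg (by omega)]
    rw [h1, add_zero]
    split_ifs with h2
    · rfl
    · rw [zero_mul, map_zero, coeff_X_pow_mul', if_neg h2]
  have hterm : ∀ j ∈ Finset.range (ℓ + 1), ((C (a j) * (b ^ j * dl ^ (ℓ - j))) * T).coeff ℓ =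
      if j = i then a i else 0 := by
    intro j hj
    rw [Finset.mem_range] at hj
    rw [dl_eq_X_mul, mul_pow]
    rcases lt_trichotomy j i with h | h | h
    · rw [if_neg (by omega)]
      have e : (C (a j) * (b ^ j * (X ^ (ℓ - j) * dd ^ (ℓ - j)))) * T =
          X ^ (ℓ - j + i) * ((C (a j) * (b ^ j * dd ^ (ℓ - j))) *
            (hh ^ (ℓ - i) * (w * bi ^ i))) := by
        rw [hT, pow_add]; ring
      rw [e, coeff_X_pow_mul', if_neg (by omega)]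
    · subst h
      rw [if_pos rfl]
      have h1 : b ^ j * bi ^ j = 1 := by rw [← mul_pow, hb, one_pow]
      have h2 : dd ^ (ℓ - j) * hh ^ (ℓ - j) = 1 := by rw [← mul_pow, dd_mul_hh, one_pow]
      have e : (C (a j) * (b ^ j * (X ^ (ℓ - j) * dd ^ (ℓ - j)))) * T =
          X ^ ℓ * (C (a j) * w) := by
        have h3 : (X : ℂ⟦X⟧) ^ ℓ = X ^ (ℓ - j) * X ^ j := by rw [← pow_add]; congr 1; omega
        rw [hT, h3]
        calc _ = (b ^ j * bi ^ j) * (dd ^ (ℓ - j) * hh ^ (ℓ - j)) *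
              (X ^ (ℓ - j) * X ^ j * (C (a j) * w)) := by ring
          _ = _ := by rw [h1, h2]; ring
      rw [e, coeff_X_pow_mul', if_pos le_rfl, Nat.sub_self, coeff_C_mul, hw0, mul_one]
    · rw [if_neg (by omega)]
      obtain ⟨n, rfl⟩ : ∃ n, j = i + n := ⟨j - i, by omega⟩
      have h1 : b ^ i * bi ^ i = 1 := by rw [← mul_pow, hb, one_pow]
      have h2 : dd ^ (ℓ - (i + n)) * hh ^ (ℓ - (i + n)) = 1 := by
        rw [← mul_pow, dd_mul_hh, one_pow]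
      have h4 : hh ^ (ℓ - i) = hh ^ (ℓ - (i + n)) * hh ^ n := by rw [← pow_add]; congr 1; omega
      have h6 : (X : ℂ⟦X⟧) ^ (ℓ - n) = X ^ (ℓ - (i + n)) * X ^ i := by
        rw [← pow_add]; congr 1; omega
      have e : (C (a (i + n)) * (b ^ (i + n) * (X ^ (ℓ - (i + n)) * dd ^ (ℓ - (i + n))))) * T =
          X ^ (ℓ - n) * (C (a (i + n)) * ((b * hh) ^ n * w)) := by
        rw [hT, h6, mul_pow, h4, pow_add b]
        calc _ = (b ^ i * bi ^ i) *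
              (dd ^ (ℓ - (i + n)) * hh ^ (ℓ - (i + n))) *
              (X ^ (ℓ - (i + n)) * X ^ i * (C (a (i + n)) * (b ^ n * hh ^ n * w))) := by ring
          _ = _ := by rw [h1, h2]; ring
      rw [e, coeff_X_pow_mul', if_pos (by omega), coeff_C_mul]
      have : ℓ - (ℓ - n) = n := by omega
      rw [this, hres n (by omega), mul_zero]
  have hPT2 : (P * T).coeff ℓ = a i := by
    rw [hPd, Finset.sum_mul, map_sum, Finset.sum_congr rfl hterm,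
      Finset.sum_ite_eq' (Finset.range (ℓ + 1)) i, if_pos (Finset.mem_range.mpr (by omega))]
  rw [← hPT2, hPT1, hT]
  congr 1
  rw [pow_add X m i]
  ring

/-- The inverse of `E₄`. -/
noncomputable def gg4 : ℂ⟦X⟧ := e4⁻¹

lemma e4_mul_gg4 : e4 * gg4 = 1 := by
  unfold gg4
  apply PowerSeries.mul_inv_cancel
  rw [← coeff_zero_eq_constantCoeff_apply, e4_coeff_zero]
  exact one_ne_zero

lemma gg4_coeff_zero : gg4.coeff 0 = 1 := by
  have h := congrArg (PowerSeries.coeff 0) e4_mul_gg4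
  rw [coeff_zero_mul', e4_coeff_zero, one_mul] at h
  rw [h]; simp

/-- `w = E₆ / E₄`. -/
noncomputable def ww4 : ℂ⟦X⟧ := e6 * gg4

lemma ww4_coeff_zero : ww4.coeff 0 = 1 := by
  rw [ww4, coeff_zero_mul', e6_coeff_zero, gg4_coeff_zero, one_mul]

lemma v4_mul_ww4 : (e4 ^ 3 * hh) * ww4 = e4 ^ 3 * hh - th (e4 ^ 3 * hh) := by
  have h3 : (C (3⁻¹ : ℂ) : ℂ⟦X⟧) * 3 = 1 := by
    rw [show (3 : ℂ⟦X⟧) = C (3 : ℂ) from (map_ofNat C 3).symm, ← map_mul]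
    norm_num
  have hg := e4_mul_gg4
  unfold ww4
  rw [th_mul, show (3 : ℕ) = 2 + 1 from rfl, th_pow, th4, th_hh, smul_eq_C_mul]
  push_cast
  linear_combination (e4 ^ 2 * e6 * hh) * hg + (e4 ^ 2 * (e2 * e4 - e6) * hh) * h3

lemma extraction4 (ℓ m : ℕ) (a : ℕ → ℂ)
    (hP : ∀ i ≤ ℓ, (∑ j ∈ Finset.range (ℓ + 1), C (a j) * ((e4 ^ 3) ^ j * dl ^ (ℓ - j))).coeff i
      = if i = m then 1 else 0) (i : ℕ) (hi : i ≤ ℓ) :
    a i = (X ^ (m + i) * (hh ^ (ℓ - i) * ww4 * (gg4 ^ 3) ^ i)).coeff ℓ :=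
  extraction_gen (e4 ^ 3) (gg4 ^ 3) ww4 (by rw [← mul_pow, e4_mul_gg4, one_pow]) ww4_coeff_zero
    (fun n hn => residue_gen _ _ v4_mul_ww4 n hn) ℓ m a hP i hi

/-! ### Real coefficients -/

/-- All coefficients are real. -/
def RC (p : ℂ⟦X⟧) : Prop := ∃ r : PowerSeries ℝ, p = PowerSeries.map Complex.ofRealHom r

lemma RC.mul {p q : ℂ⟦X⟧} (hp : RC p) (hq : RC q) : RC (p * q) := by
  obtain ⟨r, rfl⟩ := hp
  obtain ⟨s, rfl⟩ := hq
  exact ⟨r * s, by rw [map_mul]⟩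

lemma RC.pow {p : ℂ⟦X⟧} (hp : RC p) (k : ℕ) : RC (p ^ k) := by
  obtain ⟨r, rfl⟩ := hp
  exact ⟨r ^ k, by rw [map_pow]⟩

lemma RC.of_coeff {p : ℂ⟦X⟧} (h : ∀ n, ∃ r : ℝ, p.coeff n = (r : ℂ)) : RC p := by
  choose r hr using h
  exact ⟨PowerSeries.mk r, by ext n; rw [coeff_map, coeff_mk, hr]; rfl⟩

lemma RC.coeff {p : ℂ⟦X⟧} (hp : RC p) (n : ℕ) : ∃ r : ℝ, p.coeff n = (r : ℂ) := by
  obtain ⟨r, rfl⟩ := hp
  exact ⟨r.coeff n, by rw [coeff_map]; rfl⟩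

lemma RC.X : RC (PowerSeries.X : ℂ⟦X⟧) := ⟨PowerSeries.X, by simp⟩

lemma RC.e6 : RC e6 := RC.of_coeff fun n => ⟨c6 n, by
  rw [coeff_e6, c6]; split_ifs <;> simp⟩

lemma RC.e4 : RC e4 := RC.of_coeff fun n => ⟨c4 n, by
  rw [coeff_e4, c4]; split_ifs <;> simp⟩

lemma RC.hh : RC hh := RC.of_coeff fun n => by
  obtain ⟨r, -, hr⟩ := NN1_hh.1 n
  exact ⟨r, hr⟩

lemma RC.gg4 : RC gg4 := by
  obtain ⟨r, hr⟩ := RC.e4
  have h0 : PowerSeries.constantCoeff r ≠ 0 := by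
    intro h
    have h1 := e4_coeff_zero
    rw [hr, coeff_map, coeff_zero_eq_constantCoeff_apply, h] at h1
    simp at h1
  have h1 : r * r⁻¹ = 1 := PowerSeries.mul_inv_cancel r h0
  have h2 : QD.e4 * PowerSeries.map Complex.ofRealHom r⁻¹ = 1 := by
    rw [hr, ← map_mul, h1, map_one]
  refine ⟨r⁻¹, ?_⟩
  have h3 := e4_mul_gg4
  have hne : QD.e4 ≠ 0 := by
    intro h0
    rw [h0, zero_mul] at h3
    exact zero_ne_one h3
  exact mul_left_cancel₀ hne (h3.trans h2.symm)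

end Pool.Agent.R322.QD
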