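import Pool.Agent.Y949.J.Ram2

/-!
# Power series identities for the q-expansions of `E₂, E₄, E₆, Δ`
-/

set_option autoImplicit false

open UpperHalfPlane hiding I
open Real Complex Filter Topology Derivative EisensteinSeries ModularForm MatrixGroups Function CuspForm
open scoped Manifold MatrixGroups ModularForm

namespace Pool.Agent.R322.QD

/-- The operator `q d/dq` on power series. -/
noncomputable def th {R : Type*} [CommRing R] (p : PowerSeries R) : PowerSeries R :=
  PowerSeries.X * PowerSeries.derivative R p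

lemma coeff_th {R : Type*} [CommRing R] (p : PowerSeries R) (n : ℕ) :
    (th p).coeff n = n * p.coeff n := by
  unfold th
  cases n with
  | zero => simp
  | succ n =>
    rw [PowerSeries.coeff_succ_X_mul, PowerSeries.coeff_derivative]
    push_cast; ring

lemma th_mul {R : Type*} [CommRing R] (p r : PowerSeries R) : th (p * r) = th p * r + p * th r := by
  unfold th
  rw [Derivation.leibniz]
  simp only [smul_eq_mul]; ring

/-- The hypotheses on a function on the upper half plane with a q-expansion. -/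
structure Good (f : ℍ → ℂ) : Prop where
  per : Function.Periodic (f ∘ ofComplex) (1 : ℝ)
  hol : MDiff f
  bdd : IsBoundedAtImInfty f

lemma Good.an {f : ℍ → ℂ} (h : Good f) : AnalyticAt ℂ (cuspFunction 1 f) 0 :=
  analyticAt_cuspFunction_zero one_pos h.per h.hol h.bdd

lemma good_modular {k : ℤ} (f : ModularForm 𝒮ℒ k) : Good f :=
  ⟨SlashInvariantFormClass.periodic_comp_ofComplex f one_mem_strictPeriods_SL,
    ModularFormClass.holo f, ModularFormClass.bdd_at_infty f⟩

lemma hasSum_D {f : ℍ → ℂ} (h : Good f) (τ : ℍ) :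
    HasSum (fun m : ℕ => ((m : ℂ) * (qExpansion 1 f).coeff m) • Function.Periodic.qParam 1 τ ^ m)
      (D f τ) := by
  set F := cuspFunction 1 f with hF
  have hFd : DifferentiableOn ℂ F (Metric.ball 0 1) :=
    differentiableOn_cuspFunction_ball one_pos h.per h.hol h.bdd
  have hFd' : DifferentiableOn ℂ (deriv F) (Metric.ball 0 1) := hFd.deriv Metric.isOpen_ball
  have hq : ‖Function.Periodic.qParam 1 τ‖ < 1 := Function.Periodic.norm_qParam_lt_one one_pos τ.im_pos
  have hqmem : Function.Periodic.qParam 1 τ ∈ Metric.ball (0 : ℂ) 1 := by simpa using hq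
  have hs := hasSum_taylorSeries_on_ball hFd' hqmem
  -- the derivative
  have hD : D f τ = Function.Periodic.qParam 1 τ * deriv F (Function.Periodic.qParam 1 τ) := by
    have hev : (f ∘ ofComplex) =ᶠ[𝓝 (τ : ℂ)] fun w => F (Function.Periodic.qParam 1 w) := by
      filter_upwards [isOpen_upperHalfPlaneSet.mem_nhds τ.2] with w hw
      have := UpperHalfPlane.eq_cuspFunction (⟨w, hw⟩ : ℍ) one_ne_zero h.per
      rw [hF]
      rw [show Function.Periodic.qParam 1 w = Function.Periodic.qParam 1 ((⟨w, hw⟩ : ℍ) : ℂ) from rfl,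
        this, Function.comp_apply, ofComplex_apply_of_im_pos hw]
    have hFat : DifferentiableAt ℂ F (Function.Periodic.qParam 1 τ) :=
      hFd.differentiableAt (Metric.isOpen_ball.mem_nhds hqmem)
    have hqd : HasDerivAt (fun w : ℂ => Function.Periodic.qParam 1 w)
        (2 * π * I * Function.Periodic.qParam 1 τ) (τ : ℂ) := by
      have h1 : HasDerivAt (fun w : ℂ => 2 * π * I * w / (1 : ℝ)) (2 * π * I * 1 / (1 : ℝ)) (τ : ℂ) :=
        ((hasDerivAt_id (τ : ℂ)).const_mul (2 * π * I)).div_const _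
      have h2 := h1.cexp
      have h3 : (2 * π * I * Function.Periodic.qParam 1 τ : ℂ) =
          Complex.exp (2 * π * I * τ / (1 : ℝ)) * (2 * π * I * 1 / (1 : ℝ)) := by
        simp only [Function.Periodic.qParam]
        push_cast; ring
      rw [h3]
      exact h2
    have hcomp := hFat.hasDerivAt.comp (τ : ℂ) hqd
    rw [normalizedDerivOfComplex, hev.deriv_eq]
    rw [show deriv (fun w => F (Function.Periodic.qParam 1 w)) (τ : ℂ) =
      deriv F (Function.Periodic.qParam 1 τ) * (2 * π * I * Function.Periodic.qParam 1 τ) from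
        hcomp.deriv]
    have hpi : (2 * π * I : ℂ) ≠ 0 := Complex.two_pi_I_ne_zero
    field_simp
  rw [hD]
  rw [← hasSum_nat_add_iff' 1]
  have hmul := hs.mul_left (Function.Periodic.qParam 1 τ)
  simp only [Finset.range_one, Finset.sum_singleton, Nat.cast_zero, zero_mul, zero_smul, sub_zero]
  convert! hmul using 1
  funext n
  rw [qExpansion_coeff, iteratedDeriv_succ', Nat.factorial_succ]
  simp only [smul_eq_mul, sub_zero]
  have h1 : ((n : ℂ) + 1) ≠ 0 := by exact_mod_cast Nat.succ_ne_zero n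
  have h2 : ((n.factorial : ℕ) : ℂ) ≠ 0 := by exact_mod_cast n.factorial_ne_zero
  push_cast
  field_simp
  rw [hF]
  ring

/-- A holomorphic function with a `q`-expansion is good. -/
lemma good_of_hasSum {f : ℍ → ℂ} (hf : MDiff f) {c : ℕ → ℂ}
    (hs : ∀ τ : ℍ, HasSum (fun m : ℕ => c m • Function.Periodic.qParam 1 τ ^ m) (f τ)) : Good f := by
  refine ⟨?_, hf, isBoundedAtImInfty_of_hasSum_qExpansion one_pos hs⟩
  intro w
  by_cases hw : 0 < w.im
  · have hw1 : 0 < (w + (1 : ℝ)).im := by simpa using hw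
    simp only [comp_apply, ofComplex_apply_of_im_pos hw1, ofComplex_apply_of_im_pos hw]
    have h1 := hs ⟨w + (1 : ℝ), hw1⟩
    have h2 := hs ⟨w, hw⟩
    have h3 : Function.Periodic.qParam 1 (w + (1 : ℝ)) = Function.Periodic.qParam 1 w := by
      simp only [Function.Periodic.qParam, ofReal_one, div_one]
      rw [mul_add, mul_one, Complex.exp_add, Complex.exp_two_pi_mul_I, mul_one]
    change HasSum (fun m : ℕ => c m • Function.Periodic.qParam 1 (w + (1 : ℝ)) ^ m) _ at h1
    rw [h3] at h1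
    exact h1.unique h2
  · have hw0 : w.im ≤ 0 := not_lt.mp hw
    have hw1 : (w + (1 : ℝ)).im ≤ 0 := by simpa using hw0
    simp only [comp_apply, ofComplex_apply_of_im_nonpos hw0, ofComplex_apply_of_im_nonpos hw1]

lemma good_D {f : ℍ → ℂ} (h : Good f) : Good (D f) :=
  good_of_hasSum (normalizedDerivOfComplex_mdifferentiable h.hol) (hasSum_D h)

lemma coeff_unique {f : ℍ → ℂ} (ha : AnalyticAt ℂ (cuspFunction 1 f) 0) {c : ℕ → ℂ}
    (hs : ∀ τ : ℍ, HasSum (fun m : ℕ => c m • Function.Periodic.qParam 1 τ ^ m) (f τ)) (m : ℕ) :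
    (qExpansion 1 f).coeff m = c m := by
  have h1 := (UpperHalfPlane.hasFPowerSeriesOnBall_cuspFunction one_pos ha hs).hasFPowerSeriesAt
  have h2 := h1.eq_formalMultilinearSeries ha.hasFPowerSeriesAt
  have h3 := congr_arg (FormalMultilinearSeries.coeff · m) h2
  simp only [FormalMultilinearSeries.coeff_ofScalars] at h3
  rw [qExpansion_coeff, h3]
  ring

lemma qExpansion_D {f : ℍ → ℂ} (h : Good f) : qExpansion 1 (D f) = th (qExpansion 1 f) := by
  ext n
  rw [coeff_th]
  exact coeff_unique (good_D h).an (hasSum_D h) n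

lemma hasSum_E2 (τ : ℍ) : HasSum (fun m : ℕ ↦
    (if m = 0 then 1 else -24 * ArithmeticFunction.sigma 1 m : ℂ) • Function.Periodic.qParam 1 τ ^ m)
    (E2 τ) := by
  simpa only [Function.Periodic.qParam, ofReal_one, div_one] using hasSum_qExpansion_E2 (z := τ)

lemma good_E2 : Good E2 :=
  good_of_hasSum (c := fun m : ℕ ↦ (if m = 0 then 1 else -24 * ArithmeticFunction.sigma 1 m : ℂ))
    E2_mdifferentiable hasSum_E2

/-- q-expansion of `E₂`. -/
noncomputable def e2 : PowerSeries ℂ := qExpansion 1 E2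
/-- q-expansion of `E₄`. -/
noncomputable def e4 : PowerSeries ℂ := qExpansion 1 (E₄ : ℍ → ℂ)
/-- q-expansion of `E₆`. -/
noncomputable def e6 : PowerSeries ℂ := qExpansion 1 (E₆ : ℍ → ℂ)
/-- q-expansion of `Δ`. -/
noncomputable def dl : PowerSeries ℂ := qExpansion 1 ModularForm.discriminant

lemma coeff_e2 (n : ℕ) : e2.coeff n =
    (if n = 0 then 1 else -24 * ArithmeticFunction.sigma 1 n : ℂ) :=
  coeff_unique (c := fun m : ℕ ↦ (if m = 0 then 1 else -24 * ArithmeticFunction.sigma 1 m : ℂ))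
    good_E2.an hasSum_E2 n

lemma coeff_e4 (n : ℕ) : e4.coeff n =
    (if n = 0 then 1 else 240 * ArithmeticFunction.sigma 3 n : ℂ) := by
  have h := E_qExpansion_coeff (k := 4) (by norm_num) ⟨2, rfl⟩ n
  have hb : bernoulli 4 = -1 / 30 := by decide +kernel
  rw [hb] at h
  unfold e4
  rw [h]
  norm_num

lemma coeff_e6 (n : ℕ) : e6.coeff n =
    (if n = 0 then 1 else -504 * ArithmeticFunction.sigma 5 n : ℂ) := by
  have h := E_qExpansion_coeff (k := 6) (by norm_num) ⟨3, rfl⟩ n
  have hb : bernoulli 6 = 1 / 42 := by decide +kernel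
  rw [hb] at h
  unfold e6
  rw [h]
  norm_num

lemma Good.mul {f g : ℍ → ℂ} (hf : Good f) (hg : Good g) : Good (f * g) := by
  refine ⟨?_, hf.hol.mul hg.hol, hf.bdd.mul hg.bdd⟩
  intro w
  have h1 := hf.per w
  have h2 := hg.per w
  simp only [comp_apply, Pi.mul_apply] at h1 h2 ⊢
  rw [h1, h2]

lemma Good.sub {f g : ℍ → ℂ} (hf : Good f) (hg : Good g) : Good (f - g) := by
  refine ⟨?_, hf.hol.sub hg.hol, hf.bdd.sub hg.bdd⟩
  intro w
  have h1 := hf.per w
  have h2 := hg.per w
  simp only [comp_apply, Pi.sub_apply] at h1 h2 ⊢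
  rw [h1, h2]

lemma two_smul_eq (c : ℂ) (p : PowerSeries ℂ) : c • p = PowerSeries.C c * p :=
  PowerSeries.smul_eq_C_mul p c

lemma good_E4 : Good (E₄ : ℍ → ℂ) := good_modular E₄
lemma good_E6 : Good (E₆ : ℍ → ℂ) := good_modular E₆

lemma th6 : th e6 = (2⁻¹ : ℂ) • (e2 * e6 - e4 * e4) := by
  have h : D (E₆ : ℍ → ℂ) = (2⁻¹ : ℂ) • (E2 * (E₆ : ℍ → ℂ) - (E₄ : ℍ → ℂ) * (E₄ : ℍ → ℂ)) := by
    funext z
    have := Pool.Agent.Y949.J.ram6 z
    simp only [Pi.smul_apply, Pi.sub_apply, Pi.mul_apply, smul_eq_mul]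
    rw [show D (E₆ : ℍ → ℂ) z = D (fun w => E₆ w) z from rfl, this]
    ring
  have h1 := qExpansion_D good_E6
  rw [h, UpperHalfPlane.qExpansion_smul ((good_E2.mul good_E6).sub (good_E4.mul good_E4)).an,
    UpperHalfPlane.qExpansion_sub (good_E2.mul good_E6).an (good_E4.mul good_E4).an,
    UpperHalfPlane.qExpansion_mul good_E2.an good_E6.an,
    UpperHalfPlane.qExpansion_mul good_E4.an good_E4.an] at h1
  exact h1.symm

lemma th4 : th e4 = (3⁻¹ : ℂ) • (e2 * e4 - e6) := by
  have h : D (E₄ : ℍ → ℂ) = (3⁻¹ : ℂ) • (E2 * (E₄ : ℍ → ℂ) - (E₆ : ℍ → ℂ)) := by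
    funext z
    have := Pool.Agent.Y949.J.ram4 z
    simp only [Pi.smul_apply, Pi.sub_apply, Pi.mul_apply, smul_eq_mul]
    rw [show D (E₄ : ℍ → ℂ) z = D (fun w => E₄ w) z from rfl, this]
  have h1 := qExpansion_D good_E4
  rw [h, UpperHalfPlane.qExpansion_smul ((good_E2.mul good_E4).sub good_E6).an,
    UpperHalfPlane.qExpansion_sub (good_E2.mul good_E4).an good_E6.an,
    UpperHalfPlane.qExpansion_mul good_E2.an good_E4.an] at h1
  exact h1.symm

lemma dl_eq : (1728 : ℂ) • dl = e4 ^ 3 - e6 ^ 2 := by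
  have h : (1728 : ℂ) • ModularForm.discriminant =
      (E₄ : ℍ → ℂ) * (E₄ : ℍ → ℂ) * (E₄ : ℍ → ℂ) - (E₆ : ℍ → ℂ) * (E₆ : ℍ → ℂ) := by
    funext z
    simp only [Pi.smul_apply, Pi.sub_apply, Pi.mul_apply, smul_eq_mul]
    rw [ModularForm.discriminant_eq_E₄_cube_sub_E₆_sq z]
    ring
  have gd : Good ModularForm.discriminant := by
    have h1 := good_modular (k := 12) (CuspForm.discriminant : ModularForm 𝒮ℒ 12)
    exact h1
  have h1 := UpperHalfPlane.qExpansion_smul gd.an 1728
  rw [h, UpperHalfPlane.qExpansion_sub ((good_E4.mul good_E4).mul good_E4).an (good_E6.mul good_E6).an,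
    UpperHalfPlane.qExpansion_mul (good_E4.mul good_E4).an good_E4.an,
    UpperHalfPlane.qExpansion_mul good_E4.an good_E4.an,
    UpperHalfPlane.qExpansion_mul good_E6.an good_E6.an] at h1
  unfold dl
  rw [← h1]
  unfold e4 e6
  ring

end Pool.Agent.R322.QD
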