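import Pool.Agent.R322.RhoLine

/-!
# Miller forms of weight `12 ℓ` in terms of `E₄³` and `Δ`, and points equivalent to the arc
-/

set_option autoImplicit false

open UpperHalfPlane hiding I
open Real Complex Filter Topology Derivative EisensteinSeries ModularForm MatrixGroups Function CuspForm
open scoped Manifold MatrixGroups ModularForm

namespace Pool.Agent.R322.QD

/-- Every form of weight `12 ℓ` is `∑ b_i (E₄³)^i Δ^{ℓ-i}`. -/
lemma structure4 (ℓ : ℕ) (f : ModularForm 𝒮ℒ ((12 * ℓ : ℕ) : ℤ)) : ∃ b : ℕ → ℂ, ∀ τ : ℍ,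
    f τ = ∑ i ∈ Finset.range (ℓ + 1), b i *
      ((E₄ τ ^ 3) ^ i * ModularForm.discriminant τ ^ (ℓ - i)) := by
  obtain ⟨a, ha⟩ := structure_form 0 0 (by norm_num) (by norm_num) ℓ f
  set P : Polynomial ℂ := ∑ i ∈ Finset.range (ℓ + 1),
    Polynomial.C (a i) * (Polynomial.X - Polynomial.C 1728) ^ i with hP
  have hdeg : P.natDegree ≤ ℓ := by
    refine Polynomial.natDegree_sum_le_of_forall_le _ _ fun i hi => ?_
    rw [Finset.mem_range] at hi
    refine (Polynomial.natDegree_C_mul_le _ _).trans ?_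
    rw [(Polynomial.monic_X_sub_C (1728 : ℂ)).natDegree_pow, Polynomial.natDegree_X_sub_C]
    omega
  refine ⟨P.coeff, fun τ => ?_⟩
  have hd := discriminant_ne_zero τ
  set δ := ModularForm.discriminant τ with hδ
  set x := E₄ τ ^ 3 with hx
  have h6 : E₆ τ ^ 2 = x - 1728 * δ := by
    have := discriminant_eq_E₄_cube_sub_E₆_sq τ
    rw [hδ, this, hx]; ring
  -- both sides equal `δ ^ ℓ * P.eval (x / δ)`
  have h1 : f τ = δ ^ ℓ * P.eval (x / δ) := by
    rw [ha τ, hP, Polynomial.eval_finsetSum, pow_zero, pow_zero, one_mul, one_mul, Finset.mul_sum]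
    refine Finset.sum_congr rfl fun i hi => ?_
    rw [Finset.mem_range] at hi
    have h2 : x / δ - 1728 = E₆ τ ^ 2 / δ := by rw [h6]; field_simp
    simp only [Polynomial.eval_mul, Polynomial.eval_C, Polynomial.eval_pow, Polynomial.eval_sub,
      Polynomial.eval_X]
    rw [h2, div_pow, ← pow_mul]
    have h3 : δ ^ ℓ = δ ^ (ℓ - i) * δ ^ i := by rw [← pow_add]; congr 1; omega
    rw [h3]
    field_simp
    rfl
  rw [h1, Polynomial.eval_eq_sum_range' (n := ℓ + 1) (by omega), Finset.mul_sum]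
  refine Finset.sum_congr rfl fun i hi => ?_
  rw [Finset.mem_range] at hi
  have h3 : δ ^ ℓ = δ ^ (ℓ - i) * δ ^ i := by rw [← pow_add]; congr 1; omega
  rw [h3, div_pow]
  field_simp

/-- The q-expansion of a form given as in `structure4`. -/
lemma qExpansion_of_structure4 (ℓ : ℕ) {k : ℤ} (f : ModularForm 𝒮ℒ k) (a : ℕ → ℂ)
    (h : ∀ τ : ℍ, f τ = ∑ i ∈ Finset.range (ℓ + 1), a i *
      ((E₄ τ ^ 3) ^ i * ModularForm.discriminant τ ^ (ℓ - i))) :
    qExpansion 1 (f : ℍ → ℂ) =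
      ∑ i ∈ Finset.range (ℓ + 1), PowerSeries.C (a i) * ((e4 ^ 3) ^ i * dl ^ (ℓ - i)) := by
  have hw : ∀ i ∈ Finset.range (ℓ + 1), ((3 * i : ℕ) : ℤ) * 4 + ((ℓ - i : ℕ) : ℤ) * 12 = 12 * ℓ := by
    intro i hi
    rw [Finset.mem_range] at hi
    have : ((ℓ - i : ℕ) : ℤ) = ℓ - i := by
      rw [Nat.cast_sub (by omega)]
    rw [this]; push_cast; ring
  have key : ∀ (n : ℕ), n ≤ ℓ + 1 → ∃ G : ModularForm 𝒮ℒ (12 * (ℓ : ℤ)),
      (∀ τ, G τ = ∑ i ∈ Finset.range n, a i *
        ((E₄ τ ^ 3) ^ i * ModularForm.discriminant τ ^ (ℓ - i))) ∧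
      qExpansion 1 (G : ℍ → ℂ) =
        ∑ i ∈ Finset.range n, PowerSeries.C (a i) * ((e4 ^ 3) ^ i * dl ^ (ℓ - i)) := by
    intro n
    induction n with
    | zero =>
      intro _
      refine ⟨0, fun τ => by simp, ?_⟩
      simpa using UpperHalfPlane.qExpansion_zero 1
    | succ n ih =>
      intro hn
      obtain ⟨G, hG1, hG2⟩ := ih (by omega)
      set T : ModularForm 𝒮ℒ (12 * (ℓ : ℤ)) := ModularForm.mcast (hw n (Finset.mem_range.mpr (by omega)))
        ((E₄.pow (3 * n)).mul ((CuspForm.discriminant : ModularForm 𝒮ℒ 12).pow (ℓ - n))) with hT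
      refine ⟨G + a n • T, fun τ => ?_, ?_⟩
      · rw [Finset.sum_range_succ, ← hG1]
        simp only [add_apply, smul_apply, smul_eq_mul]
        rw [hT]
        simp only [coe_mcast, coe_mul, coe_pow, Pi.mul_apply, Pi.pow_apply]
        rw [← pow_mul]
        rfl
      · rw [Finset.sum_range_succ, ← hG2, FunLike.coe_add,
          ModularForm.qExpansion_add one_pos one_mem_strictPeriods_SL, FunLike.coe_smul,
          ModularForm.qExpansion_smul one_pos one_mem_strictPeriods_SL, PowerSeries.smul_eq_C_mul]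
        congr 2
        rw [hT, ModularForm.qExpansion_mcast,
          ModularForm.qExpansion_mul one_pos one_mem_strictPeriods_SL,
          ModularForm.qExpansion_pow one_pos one_mem_strictPeriods_SL,
          ModularForm.qExpansion_pow one_pos one_mem_strictPeriods_SL, ← pow_mul]
        rfl
  obtain ⟨G, hG1, hG2⟩ := key (ℓ + 1) le_rfl
  have hfG : (f : ℍ → ℂ) = (G : ℍ → ℂ) := by
    funext τ
    rw [h τ, hG1]
  rw [hfG, hG2]

/-- The real coefficients of the Faber polynomial of a Miller form of weight `12 ℓ`. -/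
lemma miller4 (ℓ m : ℕ) (f : ModularForm 𝒮ℒ ((12 * ℓ : ℕ) : ℤ))
    (hf : ∀ i ≤ ℓ, (qExpansion 1 f).coeff i = if i = m then 1 else 0) :
    ∃ b : ℕ → ℝ, (∀ τ : ℍ, f τ = ∑ i ∈ Finset.range (ℓ + 1), (b i : ℂ) *
        ((E₄ τ ^ 3) ^ i * ModularForm.discriminant τ ^ (ℓ - i))) ∧
      (∀ i ≤ ℓ, (b i : ℂ) = (PowerSeries.X ^ (m + i) * (hh ^ (ℓ - i) * ww4 * (gg4 ^ 3) ^ i)).coeff ℓ) ∧
      (∀ i ≤ ℓ, ℓ < m + i → b i = 0) ∧ (∀ i, m + i = ℓ → b i = 1) := by
  obtain ⟨a, ha⟩ := structure4 ℓ f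
  have hq := qExpansion_of_structure4 ℓ f a ha
  have hP : ∀ i ≤ ℓ, (∑ j ∈ Finset.range (ℓ + 1),
      PowerSeries.C (a j) * ((e4 ^ 3) ^ j * dl ^ (ℓ - j))).coeff i = if i = m then 1 else 0 := by
    intro i hi
    rw [← hq]
    exact hf i hi
  have hex := extraction4 ℓ m a hP
  have hRC : ∀ i, RC (PowerSeries.X ^ (m + i) * (hh ^ (ℓ - i) * ww4 * (gg4 ^ 3) ^ i)) := fun i =>
    (RC.X.pow _).mul (((RC.hh.pow _).mul (RC.e6.mul RC.gg4)).mul ((RC.gg4.pow _).pow _))
  have hr : ∀ i, ∃ r : ℝ, (PowerSeries.X ^ (m + i) *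
      (hh ^ (ℓ - i) * ww4 * (gg4 ^ 3) ^ i)).coeff ℓ = (r : ℂ) := fun i => (hRC i).coeff ℓ
  choose b hb using hr
  refine ⟨b, fun τ => ?_, fun i _ => (hb i).symm, fun i _ hi => ?_, fun i hi => ?_⟩
  · rw [ha τ]
    refine Finset.sum_congr rfl fun i hi => ?_
    rw [Finset.mem_range] at hi
    rw [hex i (by omega), hb i]
  · have h := hb i
    rw [PowerSeries.coeff_X_pow_mul', if_neg (by omega)] at h
    exact_mod_cast h.symm
  · have h := hb i
    rw [PowerSeries.coeff_X_pow_mul', if_pos (by omega), hi, Nat.sub_self] at h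
    have h0 : ∀ n, (hh ^ n).coeff 0 = 1 := fun n => (NN1_hh.pow n).2
    have h4 : ∀ n, (gg4 ^ n).coeff 0 = 1 := by
      intro n
      rw [PowerSeries.coeff_zero_eq_constantCoeff_apply, map_pow,
        ← PowerSeries.coeff_zero_eq_constantCoeff_apply, gg4_coeff_zero, one_pow]
    rw [coeff_zero_mul', coeff_zero_mul', h0, ww4_coeff_zero, ← pow_mul, h4] at h
    have : (1 : ℂ) = ((b i : ℝ) : ℂ) := by simpa using h
    exact_mod_cast this.symm

/-- A point on `Re τ = -1/2`, `|τ| > 1`, is not equivalent to a point `σ` with `|σ| = 1`,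
`-1/2 ≤ Re σ ≤ 0`. -/
lemma not_equiv (τ σ : ℍ) (h1 : τ.re = -1 / 2) (h2 : 1 < ‖(τ : ℂ)‖) (h3 : ‖(σ : ℂ)‖ = 1)
    (h4 : -1 / 2 ≤ σ.re) (h5 : σ.re ≤ 0) (γ : SL(2, ℤ)) (h : γ • τ = σ) : False := by
  have hτn : 1 < τ.re ^ 2 + τ.im ^ 2 := by
    have : ‖(τ : ℂ)‖ ^ 2 = τ.re ^ 2 + τ.im ^ 2 := by
      rw [← Complex.normSq_eq_norm_sq, Complex.normSq_apply]
      simp only [UpperHalfPlane.coe_re, UpperHalfPlane.coe_im]
      ring
    nlinarith [norm_nonneg (τ : ℂ)]
  have hσn : σ.re ^ 2 + σ.im ^ 2 = 1 := by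
    have : ‖(σ : ℂ)‖ ^ 2 = σ.re ^ 2 + σ.im ^ 2 := by
      rw [← Complex.normSq_eq_norm_sq, Complex.normSq_apply]
      simp only [UpperHalfPlane.coe_re, UpperHalfPlane.coe_im]
      ring
    rw [← this, h3]; norm_num
  -- imaginary parts
  have hden : ∀ (g : SL(2, ℤ)) (z : ℍ), (g • z).im * (((g 1 0 : ℤ) : ℝ) ^ 2 * (z.re ^ 2 + z.im ^ 2) +
      2 * (g 1 0 : ℤ) * (g 1 1 : ℤ) * z.re + ((g 1 1 : ℤ) : ℝ) ^ 2) = z.im := by
    intro g z
    have h0 := ModularGroup.im_smul_eq_div_normSq g z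
    have h00 : Complex.normSq (denom g z) = (((g 1 0 : ℤ) : ℝ) ^ 2 * (z.re ^ 2 + z.im ^ 2) +
      2 * (g 1 0 : ℤ) * (g 1 1 : ℤ) * z.re + ((g 1 1 : ℤ) : ℝ) ^ 2) := by
      rw [ModularGroup.denom_apply, Complex.normSq_apply]
      simp only [Complex.add_re, Complex.mul_re, Complex.intCast_re, Complex.intCast_im,
        Complex.add_im, Complex.mul_im, UpperHalfPlane.coe_re, UpperHalfPlane.coe_im]
      ring
    have hpos : 0 < Complex.normSq (denom g z) := Complex.normSq_pos.mpr (denom_ne_zero g z)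
    rw [← h00, h0, div_mul_cancel₀ _ hpos.ne']
  set a := γ 0 0 with ha
  set b := γ 0 1 with hb
  set c := γ 1 0 with hc
  set d := γ 1 1 with hd
  have hdet : a * d - b * c = 1 := by
    have := Matrix.SpecialLinearGroup.det_coe γ
    rw [Matrix.det_fin_two] at this
    exact this
  have hA : σ.im * (((c : ℤ) : ℝ) ^ 2 * (τ.re ^ 2 + τ.im ^ 2) +
      2 * (c : ℤ) * (d : ℤ) * τ.re + ((d : ℤ) : ℝ) ^ 2) = τ.im := by
    have h0 := hden γ τ
    rw [h] at h0
    exact h0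
  have hinv : γ⁻¹ • σ = τ := by rw [← h, inv_smul_smul]
  have hB := hden γ⁻¹ σ
  rw [hinv] at hB
  have hi10 : (γ⁻¹) 1 0 = -c := by
    rw [Matrix.SpecialLinearGroup.SL2_inv_expl]; rfl
  have hi11 : (γ⁻¹) 1 1 = a := by
    rw [Matrix.SpecialLinearGroup.SL2_inv_expl]; rfl
  rw [hi10, hi11] at hB
  have hτ0 := τ.im_pos
  have hσ0 := σ.im_pos
  -- if `c ≠ 0` contradiction
  have form : ∀ x y : ℤ, (x ≠ 0) → (1 : ℝ) ≤ (x : ℝ) ^ 2 - |(x : ℝ)| * |(y : ℝ)| + (y : ℝ) ^ 2 := by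
    intro x y hx
    have h1 : (1 : ℤ) ≤ |x| ^ 2 - |x| * |y| + |y| ^ 2 := by
      have hx1 : 1 ≤ |x| := Int.one_le_abs hx
      have hy0 : 0 ≤ |y| := abs_nonneg y
      by_contra hcon
      push Not at hcon
      nlinarith [sq_nonneg (2 * |y| - |x|)]
    have h2 : (1 : ℝ) ≤ |(x : ℝ)| ^ 2 - |(x : ℝ)| * |(y : ℝ)| + |(y : ℝ)| ^ 2 := by
      exact_mod_cast h1
    rwa [sq_abs, sq_abs] at h2
  by_cases hc0 : c = 0
  · -- translation
    have hσim : σ.im = τ.im := by
      rw [hc0] at hA hB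
      have had : a * d = 1 := by rw [hc0] at hdet; linarith
      have hd1 : (d : ℝ) ^ 2 = 1 := by
        have : d = 1 ∨ d = -1 := by
          have := Int.isUnit_iff.mp (IsUnit.of_mul_eq_one a (by rw [mul_comm]; exact had))
          exact this
        rcases this with h | h <;> rw [h] <;> norm_num
      rw [hd1] at hA
      push_cast at hA
      linarith
    have hσre : ∃ n : ℤ, σ.re = τ.re + n := by
      have had : a * d = 1 := by rw [hc0] at hdet; linarith
      have hz : ((γ • τ : ℍ) : ℂ) = ((a : ℂ) * τ + b) / ((c : ℂ) * τ + d) := by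
        rw [UpperHalfPlane.specialLinearGroup_apply]
        rfl
      rw [h, hc0] at hz
      have hd1 : d = 1 ∨ d = -1 := by
        have := Int.isUnit_iff.mp (IsUnit.of_mul_eq_one a (by rw [mul_comm]; exact had))
        exact this
      rcases hd1 with h6 | h6
      · have ha1 : a = 1 := by rw [h6] at had; linarith
        rw [h6, ha1] at hz
        have : (σ : ℂ) = τ + b := by rw [hz]; push_cast; simp
        refine ⟨b, ?_⟩
        have h7 := congrArg Complex.re this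
        simpa using h7
      · have ha1 : a = -1 := by rw [h6] at had; linarith
        rw [h6, ha1] at hz
        have : (σ : ℂ) = τ + (-b : ℤ) := by rw [hz]; push_cast; simp; ring
        refine ⟨-b, ?_⟩
        have h7 := congrArg Complex.re this
        simpa using h7
    obtain ⟨n, hn⟩ := hσre
    have hn0 : n = 0 := by
      rw [h1] at hn
      rw [hn] at h4 h5
      have e1 : (-1 : ℝ) < n := by linarith
      have e2 : (n : ℝ) < 1 := by linarith
      have e3 : -1 < n := by exact_mod_cast e1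
      have e4 : n < 1 := by exact_mod_cast e2
      omega
    rw [hn0] at hn
    push_cast at hn
    rw [add_zero] at hn
    rw [hn, hσim] at hσn
    linarith
  · have hAf := form c d hc0
    have hBf := form c a hc0
    have hc2 : (0 : ℝ) < (c : ℝ) ^ 2 := by
      have : (c : ℝ) ≠ 0 := by exact_mod_cast hc0
      positivity
    have key1 : σ.im < τ.im := by
      have : 1 < ((c : ℤ) : ℝ) ^ 2 * (τ.re ^ 2 + τ.im ^ 2) + 2 * (c : ℤ) * (d : ℤ) * τ.re +
          ((d : ℤ) : ℝ) ^ 2 := by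
        have e1 : (c : ℝ) * d ≤ |(c : ℝ)| * |(d : ℝ)| := by
          rw [← abs_mul]; exact le_abs_self _
        rw [h1] at hτn ⊢
        nlinarith
      nlinarith
    have key2 : τ.im ≤ σ.im := by
      have : 1 ≤ (((-c : ℤ) : ℤ) : ℝ) ^ 2 * (σ.re ^ 2 + σ.im ^ 2) +
          2 * ((-c : ℤ) : ℤ) * (a : ℤ) * σ.re + ((a : ℤ) : ℝ) ^ 2 := by
        rw [hσn]
        push_cast
        have e1 : (2 * σ.re) * ((c : ℝ) * a) ≤ |(c : ℝ)| * |(a : ℝ)| := by
          rw [← abs_mul]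
          have e2 : |2 * σ.re| ≤ 1 := by
            rw [abs_le]; constructor <;> linarith
          calc (2 * σ.re) * ((c : ℝ) * a) ≤ |(2 * σ.re) * ((c : ℝ) * a)| := le_abs_self _
            _ = |2 * σ.re| * |(c : ℝ) * a| := abs_mul _ _
            _ ≤ 1 * |(c : ℝ) * a| := by gcongr
            _ = _ := one_mul _
        nlinarith
      nlinarith
    linarith

end Pool.Agent.R322.QD
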