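import Pool.Agent.R322.MillerEv

/-!
# The line `Re τ = -1/2`
-/

set_option autoImplicit false

open UpperHalfPlane hiding I
open Real Complex Filter Topology Derivative EisensteinSeries ModularForm MatrixGroups Function CuspForm
open scoped Manifold MatrixGroups ModularForm

namespace Pool.Agent.R322.QD

lemma qParam_half {τ : ℍ} (h : τ.re = -1 / 2) :
    Function.Periodic.qParam 1 (τ : ℂ) = ((-rr τ : ℝ) : ℂ) := by
  have h1 : (τ : ℂ) = -1 / 2 + I * τ.im := by
    apply Complex.ext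
    · simp only [Complex.add_re, Complex.mul_re, Complex.I_re, Complex.I_im, Complex.ofReal_re,
        Complex.ofReal_im]
      norm_num
      rw [h]; norm_num
    · simp
  simp only [Function.Periodic.qParam, rr, ofReal_one, div_one]
  rw [h1]
  have h2 : 2 * (π : ℂ) * I * (-1 / 2 + I * τ.im) = -(π * I) + ((-2 * π * τ.im : ℝ) : ℂ) := by
    push_cast
    linear_combination (2 * π * (τ.im : ℂ)) * Complex.I_sq
  rw [h2, Complex.exp_add, Complex.exp_neg, Complex.exp_pi_mul_I]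
  push_cast
  norm_num

lemma real_half {f : ℍ → ℂ} (hf : Good f) (hc : RC (qExpansion 1 f)) {τ : ℍ}
    (h : τ.re = -1 / 2) : (f τ).im = 0 := by
  have h1 := UpperHalfPlane.hasSum_qExpansion one_pos hf.per hf.hol hf.bdd τ
  rw [qParam_half h] at h1
  have h2 : ∀ m : ℕ, ((qExpansion 1 f).coeff m • ((-rr τ : ℝ) : ℂ) ^ m).im = 0 := by
    intro m
    obtain ⟨r, hr⟩ := hc.coeff m
    rw [hr, smul_eq_mul, ← Complex.ofReal_pow, ← Complex.ofReal_mul, Complex.ofReal_im]
  have h3 := Complex.hasSum_im h1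
  simp only [h2] at h3
  exact h3.unique hasSum_zero

lemma E4_half {τ : ℍ} (h : τ.re = -1 / 2) : (E₄ τ).im = 0 :=
  real_half good_E4 RC.e4 h

/-- `Δ` is a negative real number on the line `Re τ = -1/2`. -/
lemma disc_half {τ : ℍ} (h : τ.re = -1 / 2) :
    ∃ r : ℝ, 0 < r ∧ ModularForm.discriminant τ = ((-r : ℝ) : ℂ) := by
  have h1 : ModularForm.discriminant τ =
      Function.Periodic.qParam 1 (τ : ℂ) * (∏' n, (1 - eta_q n τ)) ^ 24 := by
    rw [discriminant_eq_q_prod]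
    congr 1
    exact (multipliableLocallyUniformlyOn_eta.multipliable τ.2).tprod_pow _
  have hq : ∀ n, (1 - eta_q n (τ : ℂ)).im = 0 := by
    intro n
    have : eta_q n (τ : ℂ) = (((-rr τ) ^ (n + 1) : ℝ) : ℂ) := by
      rw [eta_q_eq_pow]
      have := qParam_half h
      simp only [Function.Periodic.qParam, ofReal_one, div_one] at this
      rw [this]; push_cast; rfl
    rw [this, Complex.sub_im, Complex.one_im, Complex.ofReal_im, sub_zero]
  have hP : (∏' n, (1 - eta_q n (τ : ℂ))).im = 0 := by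
    have hm := (multipliableLocallyUniformlyOn_eta.multipliable τ.2).hasProd
    have hcl : IsClosed {z : ℂ | z.im = 0} := isClosed_eq Complex.continuous_im continuous_const
    refine hcl.mem_of_tendsto hm (Eventually.of_forall fun s => ?_)
    show (∏ b ∈ s, (1 - eta_q b (τ : ℂ))).im = 0
    have hs : ∏ b ∈ s, (1 - eta_q b (τ : ℂ)) = ((∏ b ∈ s, (1 - eta_q b (τ : ℂ)).re : ℝ) : ℂ) := by
      push_cast
      refine Finset.prod_congr rfl fun b _ => ?_
      apply Complex.ext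
      · simp
      · rw [hq b]; simp
    rw [hs, Complex.ofReal_im]
  obtain ⟨p, hp⟩ : ∃ p : ℝ, (∏' n, (1 - eta_q n (τ : ℂ))) = (p : ℂ) :=
    ⟨_, Complex.ext (by simp; rfl) (by rw [hP]; simp)⟩
  refine ⟨rr τ * p ^ 24, ?_, ?_⟩
  · have hne : (rr τ * p ^ 24 : ℝ) ≠ 0 := by
      have := discriminant_ne_zero τ
      rw [h1, hp, qParam_half h] at this
      intro h0
      apply this
      have h3 : -rr τ * p ^ 24 = 0 := by linarith
      exact_mod_cast h3
    exact lt_of_le_of_ne (mul_nonneg (rr_pos τ).le (by positivity)) hne.symm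
  · rw [h1, hp, qParam_half h]; push_cast; ring

lemma E4_S (τ : ℍ) : E₄ (ModularGroup.S • τ) = (τ : ℂ) ^ 4 * E₄ τ := by
  have h := SlashInvariantForm.slash_action_eqn' (Γ := 𝒮ℒ) E₄
    (show ((ModularGroup.S : SL(2, ℤ)) : GL (Fin 2) ℝ) ∈ 𝒮ℒ from ⟨ModularGroup.S, rfl⟩) τ
  have h10 : (((ModularGroup.S : SL(2, ℤ)) : GL (Fin 2) ℝ) 1 0 : ℝ) = 1 := by
    have : ((ModularGroup.S : SL(2, ℤ)) 1 0 : ℤ) = 1 := by decide
    show (((ModularGroup.S : SL(2, ℤ)) 1 0 : ℤ) : ℝ) = 1
    rw [this]; norm_num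
  have h11 : (((ModularGroup.S : SL(2, ℤ)) : GL (Fin 2) ℝ) 1 1 : ℝ) = 0 := by
    have : ((ModularGroup.S : SL(2, ℤ)) 1 1 : ℤ) = 0 := by decide
    show (((ModularGroup.S : SL(2, ℤ)) 1 1 : ℤ) : ℝ) = 0
    rw [this]; norm_num
  rw [h10, h11] at h
  have e : ((1 : ℝ) : ℂ) * (τ : ℂ) + ((0 : ℝ) : ℂ) = τ := by push_cast; ring
  rw [e] at h
  exact h

/-- The point `-1/2 + i t` (for `t ≥ √3/2`, otherwise `ρ`). -/
noncomputable def lp (t : ℝ) : ℍ := ⟨-1 / 2 + I * ((max t (√3 / 2) : ℝ) : ℂ), by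
  have : 0 < max t (√3 / 2) := lt_of_lt_of_le (by positivity) (le_max_right _ _)
  have h2 : (-1 / 2 + I * ((max t (√3 / 2) : ℝ) : ℂ) : ℂ).im = max t (√3 / 2) := by simp
  rw [h2]; exact this⟩

lemma lp_coe (t : ℝ) : ((lp t : ℍ) : ℂ) = -1 / 2 + I * ((max t (√3 / 2) : ℝ) : ℂ) := rfl

lemma lp_re (t : ℝ) : (lp t).re = -1 / 2 := by
  show (-1 / 2 + I * ((max t (√3 / 2) : ℝ) : ℂ) : ℂ).re = _
  simp only [Complex.add_re, Complex.mul_re, Complex.I_re, Complex.I_im, Complex.ofReal_re,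
        Complex.ofReal_im]
  norm_num

lemma lp_im (t : ℝ) : (lp t).im = max t (√3 / 2) := by
  show (-1 / 2 + I * ((max t (√3 / 2) : ℝ) : ℂ) : ℂ).im = _
  simp

lemma lp_continuous : Continuous lp := by
  rw [UpperHalfPlane.isEmbedding_coe.continuous_iff]
  show Continuous fun t : ℝ => (-1 / 2 + I * ((max t (√3 / 2) : ℝ) : ℂ) : ℂ)
  fun_prop

lemma E4_rho : E₄ (lp 0) = 0 := by
  set ρ := lp 0 with hρ
  have hm : max (0 : ℝ) (√3 / 2) = √3 / 2 := max_eq_right (by positivity)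
  have hc : (ρ : ℂ) = -1 / 2 + I * ((√3 / 2 : ℝ) : ℂ) := by rw [hρ, lp_coe, hm]
  have h3 : ((√3 : ℝ) : ℂ) ^ 2 = 3 := by
    rw [← Complex.ofReal_pow, Real.sq_sqrt (by norm_num)]; norm_num
  have hq : (ρ : ℂ) ^ 2 + ρ + 1 = 0 := by
    rw [hc]; push_cast
    linear_combination (1 / 4 : ℂ) * ((√3 : ℝ) : ℂ) ^ 2 * Complex.I_sq - (1 / 4 : ℂ) * h3
  have hS : ((ModularGroup.S • ρ : ℍ) : ℂ) = ρ + 1 := by
    rw [UpperHalfPlane.modular_S_smul]
    show (-(ρ : ℂ))⁻¹ = ρ + 1
    have hne : (ρ : ℂ) ≠ 0 := ρ.ne_zero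
    field_simp
    linear_combination -hq
  have hS' : (ModularGroup.S • ρ : ℍ) = (1 : ℝ) +ᵥ ρ := by
    apply UpperHalfPlane.ext
    rw [hS, UpperHalfPlane.coe_vadd]
    push_cast; ring
  have hper : E₄ ((1 : ℝ) +ᵥ ρ) = E₄ ρ := by
    have h1 := good_E4.per (ρ : ℂ)
    simp only [comp_apply] at h1
    have h2 : ((ρ : ℂ) + (1 : ℝ)) = (((1 : ℝ) +ᵥ ρ : ℍ) : ℂ) := by
      rw [UpperHalfPlane.coe_vadd]; ring
    rw [h2, ofComplex_apply, ofComplex_apply] at h1
    exact h1
  have h4 := E4_S ρ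
  rw [hS', hper] at h4
  have h5 : (ρ : ℂ) ^ 4 - 1 ≠ 0 := by
    have e : (ρ : ℂ) ^ 4 - 1 = ρ - 1 := by
      linear_combination ((ρ : ℂ) ^ 2 - ρ) * hq
    rw [e]
    intro h0
    have : (ρ : ℂ) = 1 := by linear_combination h0
    have h6 := congrArg Complex.im this
    have h7 := ρ.im_pos
    simp only [Complex.one_im] at h6
    exact h7.ne' h6
  have h6 : ((ρ : ℂ) ^ 4 - 1) * E₄ ρ = 0 := by linear_combination -h4
  exact (mul_eq_zero.mp h6).resolve_left h5

/-- The real number `E₄³/Δ` at `lp t`. -/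
noncomputable def xj (t : ℝ) : ℝ := (E₄ (lp t) ^ 3 / ModularForm.discriminant (lp t)).re

lemma xj_eq (t : ℝ) : E₄ (lp t) ^ 3 / ModularForm.discriminant (lp t) = (xj t : ℂ) := by
  obtain ⟨r, hr, hr'⟩ := disc_half (lp_re t)
  have h4 := E4_half (lp_re t)
  have h4' : E₄ (lp t) = ((E₄ (lp t)).re : ℂ) := Complex.ext (by simp) (by simp [h4])
  have : (E₄ (lp t) ^ 3 / ModularForm.discriminant (lp t)) =
      (((E₄ (lp t)).re ^ 3 / (-r) : ℝ) : ℂ) := by
    rw [h4', hr']; push_cast; simp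
  rw [xj, this, Complex.ofReal_re]

lemma xj_zero : xj 0 = 0 := by
  rw [xj, E4_rho]; simp

lemma E4_continuous : Continuous (E₄ : ℍ → ℂ) := (ModularFormClass.holo E₄).continuous

lemma disc_continuous : Continuous ModularForm.discriminant := by
  have h : Continuous (CuspForm.discriminant : ℍ → ℂ) :=
    (CuspFormClass.holo CuspForm.discriminant).continuous
  exact h

lemma xj_continuous : Continuous xj := by
  unfold xj
  refine Complex.continuous_re.comp (Continuous.div ?_ ?_ ?_)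
  · exact (E4_continuous.comp lp_continuous).pow 3
  · exact disc_continuous.comp lp_continuous
  · intro t
    exact discriminant_ne_zero _

lemma lp_tendsto : Tendsto lp atTop atImInfty := by
  rw [atImInfty, tendsto_comap_iff]
  have : (UpperHalfPlane.im ∘ lp) = fun t => max t (√3 / 2) := by
    funext t; exact lp_im t
  rw [this]
  exact tendsto_atTop_mono (fun t => le_max_left t _) tendsto_id

lemma xj_tendsto : Tendsto xj atTop atBot := by
  have h4 : Tendsto (fun t => (E₄ (lp t)) ^ 3) atTop (𝓝 1) := by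
    have := (Pool.Agent.Y949.J.tendsto_E4.comp lp_tendsto).pow 3
    simpa using this
  have hΔ : Tendsto (fun t => ModularForm.discriminant (lp t)) atTop (𝓝 0) :=
    (discriminant_isZeroAtImInfty : Tendsto _ _ _).comp lp_tendsto
  have h4r : Tendsto (fun t => ((E₄ (lp t)) ^ 3).re) atTop (𝓝 1) := by
    have := (Complex.continuous_re.tendsto 1).comp h4
    rw [Complex.one_re] at this
    exact this
  have hΔr : Tendsto (fun t => (ModularForm.discriminant (lp t)).re) atTop (𝓝[<] 0) := by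
    rw [tendsto_nhdsWithin_iff]
    refine ⟨?_, Eventually.of_forall fun t => ?_⟩
    · have := (Complex.continuous_re.tendsto 0).comp hΔ
      rw [Complex.zero_re] at this
      exact this
    · obtain ⟨r, hr, hr'⟩ := disc_half (lp_re t)
      rw [hr', Complex.ofReal_re]
      show -r < 0
      linarith
  have hinv := tendsto_inv_nhdsLT_zero.comp hΔr
  have hmul := Tendsto.pos_mul_atBot zero_lt_one h4r hinv
  refine hmul.congr fun t => ?_
  simp only [comp_apply]
  obtain ⟨r, hr, hr'⟩ := disc_half (lp_re t)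
  have h4' := E4_half (lp_re t)
  have h4'' : E₄ (lp t) = ((E₄ (lp t)).re : ℂ) := Complex.ext (by simp) (by simp [h4'])
  rw [xj, hr', h4'']
  rw [← Complex.ofReal_pow, ← Complex.ofReal_div, Complex.ofReal_re, Complex.ofReal_re,
    Complex.ofReal_re]
  rfl

end Pool.Agent.R322.QD
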